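import Pool.Agent.Helper11.PP.GoalsD
import Pool.Agent.Helper42.PP.Defs

/-!
# Project PP (MP_fc6b1e_nt, density theorem), part D: from the abstract moment theorem to `MOM`

Every statement is a `def ... : Prop` with its complete proof in the docstring.
-/

namespace Pool.Agent.Helper11.PP

open NumberField Polynomial Module IsDedekindDomain TensorProduct Pool.Agent.Helper51.SigLeo
open Pool.Agent.Helper51.RP Pool.Agent.Helper42.RD Pool.Agent.Helper11.LE Pool.Agent.Helper42.PP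
open Pool.Agent.Helper17.PP

/-- **D_NLS.** `NiceU` is the local condition `LocS` at the primes above `p`.

PROOF. If `b = a y^p`, `p³ ∣ b - 1`, then for `W ∣ p`: `|a y^p - 1|_W ≤ |p|_W³ < 1`. Conversely let `y` be as in
`LocS`, `b₀ = a y^p`; `b₀` is a unit at the primes above `p`. Write `b₀ = r/s` with `r, s ∈ 𝓞`, `s ≠ 0`. The ideal
`𝔡 = {d ∈ 𝓞 : d b₀ ∈ 𝓞}` contains `s`, and it is not contained in any prime `W ∣ p` (`b₀` is integral at `W`,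
so `b₀ = r'/s'` with `s' ∉ W`), so `𝔡` and `(p³)` are coprime. Take
`d ∈ 𝔡` with `d ≡ 1 mod p³`, `d ≠ 0` (if `d = 0` then `p³` is a unit, impossible). `b = b₀ d^p` is in `𝓞`, and
`|b - 1|_W ≤ max(|b₀ - 1|_W, |d^p - 1|_W) ≤ |p|_W³` for `W ∣ p`, so `(b - 1)/p³` is integral at all primes and
`p³ ∣ b - 1`. -/
def D_NLS : Prop :=
  ∀ (p : ℕ) [Fact p.Prime] (F : Type) [Field F] [NumberField F] (a : Fˣ),
    NiceU p a ↔ LocS p {W : HeightOneSpectrum (𝓞 F) | (p : 𝓞 F) ∈ W.asIdeal} a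

/-- **D_TAU** (finite index of the local conditions). Let `Z` be a finite set of primes and `H` any set of
elements. There are finitely many `c ∈ H` such that every `a ∈ H` is in the class of exactly one of them.

PROOF. `LocS` is a subgroup: if `x y^p` and `x' y'^p` are `≡ 1` (they are units at the `w ∈ Z`), then so are
their product and inverse (`u u' - 1 = (u - 1) u' + (u' - 1)`, `u⁻¹ - 1 = -(u - 1)/u`). Its index is finite:
every `a ∈ Fˣ` can be multiplied by a `p`-th power to get `a' ∈ 𝓞_F` with `0 ≤ ord_w(a') < p` for all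
`w ∈ Z` (weak approximation: choose `π_w ∈ 𝓞_F` with `ord_w(π_w) = 1` and `ord_{w'}(π_w) = 0` for the other
`w' ∈ Z`, multiply by powers of the `π_w^p`; then clear the denominators by the `p`-th power of a nonzero
element of `𝓞_F` which is a unit at the `w ∈ Z`, as in `D_NLS`). Let `𝔫 = p³ ∏_{w ∈ Z} w^(p+1)`, an ideal `≠ 0`.
To `a` associate the function `w ↦ ord_w(a')` on `Z` and the class of `a'` modulo `𝔫`: finitely many
values. If `a, a₀` have the same values then `a'/a₀' - 1 = (a' - a₀')/a₀'` has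
`ord_w ≥ 3 ord_w(p) + (p + 1) - (p - 1) > 3 ord_w(p)` for `w ∈ Z`, so `a/a₀` satisfies `LocS`. So there are
finitely many classes of `Fˣ` modulo `LocS`; take one element of `H` in each class which meets `H`. -/
def D_TAU : Prop :=
  ∀ (p : ℕ) [Fact p.Prime] (F : Type) [Field F] [NumberField F]
    (Z : Set (HeightOneSpectrum (𝓞 F))), Z.Finite → ∀ H : Set Fˣ,
  ∃ F₀ : Finset Fˣ, (∀ c ∈ F₀, c ∈ H) ∧ ∀ a ∈ H, ∃! c, c ∈ F₀ ∧ LocS p Z (a / c)

/-- The product of the norms of the primes of `S` above which the valuation of `a` is not a multiple of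
`p`. -/
noncomputable def fT (p : ℕ) {K K₁ : Type} [Field K] [NumberField K] [Field K₁] [NumberField K₁]
    [Algebra K K₁] (S : Finset (HeightOneSpectrum (𝓞 K))) (a : K₁ˣ) : ℕ :=
  ∏ᶠ (v : HeightOneSpectrum (𝓞 K)) (_ : v ∈ S ∧ ∃ W : HeightOneSpectrum (𝓞 K₁), Above W v ∧
    ¬ (p : ℤ) ∣ ordv W (a : K₁)), Ideal.absNorm v.asIdeal

/-- **D_CND** (the conductor of a class). Let `b` be the set of the labels of `a`: the pairs `(v, e)`, `v ∉ S`
split in `K₁` (a set `V` of primes), `e ∈ F_p^*` the valuation of `a` at `Q v` modulo `p`. Then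
`condC (clp a) = fT aτ · ∏_{(v, e) ∈ b} N v` if `a/aτ` satisfies `LocS` at the primes above `S`.

PROOF. The valuations of `a` and `a y^p` at `W` are congruent modulo `p`, so `ValC (clp a) v` means that
`p ∤ ord_W(a)` for some `W` above `v`. If `v ∈ S` then `(a/aτ) y^p` is a unit at all the `W` above `v`, so
`ord_W(a) ≡ ord_W(aτ)`. If `v ∉ S` use the hypotheses: `ValC (clp a) v` if and only if `v = q.1` for some
`q ∈ b`. The product is over the disjoint union of a subset of `S` and of the image of `b` under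
`q ↦ q.1`, on which this map is injective (`q.2` is determined by `q.1`). -/
def D_CND : Prop :=
  ∀ (p : ℕ) [Fact p.Prime] (K K₁ : Type) [Field K] [NumberField K] [Field K₁] [NumberField K₁]
    [Algebra K K₁] (S : Finset (HeightOneSpectrum (𝓞 K))) (V : Set (HeightOneSpectrum (𝓞 K)))
    (Q : HeightOneSpectrum (𝓞 K) → HeightOneSpectrum (𝓞 K₁)) (a aτ : K₁ˣ)
    (b : Finset {q : HeightOneSpectrum (𝓞 K) × (ZMod p)ˣ // q.1 ∈ V}),
    (∀ v ∈ V, v ∉ S) → LocS p (up K₁ S) (a / aτ) →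
    (∀ v ∈ V, ∀ W : HeightOneSpectrum (𝓞 K₁), Above W v →
      ((p : ℤ) ∣ ordv W (a : K₁) ↔ ordp p (Q v) a = 0)) →
    (∀ v ∈ V, Above (Q v) v) →
    (∀ v : HeightOneSpectrum (𝓞 K), v ∉ S → v ∉ V → ∀ W : HeightOneSpectrum (𝓞 K₁), Above W v →
      (p : ℤ) ∣ ordv W (a : K₁)) →
    (∀ q, q ∈ b ↔ ordp p (Q q.1.1) a = (q.1.2 : ZMod p)) →
  condC K (clp p a) = fT p S aτ * ∏ q ∈ b, Ideal.absNorm q.1.1.asIdeal

/-- A function which grows slowly. -/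
structure Slow (g : ℝ → ℝ) (K : ℝ) : Prop where
  one : ∀ Y, 1 ≤ g Y
  mono : ∀ Y X, Y ≤ X → g Y ≤ K * g X
  dbl : ∀ X, 1 ≤ X → g (2 * X) ≤ K * g X

open Classical in
/-- **D_SYS** (abstract; from finite to infinite sums).

PROOF (from `MT`). `1 ≤ K` by `Hyp`. By `ht` with `f = 1`, `Y = X` all the finite sums over `P.powerset` are at
most `K X min(1, X) g(X) exp(0) ≤ K X g(X)`; every finite set of `b` is contained in some `P.powerset`. So
the sums over all `b` and over the `b` with `Fam b` converge, with the same bound. The second statement: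
the finite sum over `P` is at most the infinite sum. The third: for `X ≥ X₀` every finite sum of the bad
`b` is at most the one over `P.powerset`, `P` the union of the `b` in question, and by `MT` this is at most
`(|U|/|Λ|) Q/(p(Q-1)) ∑_{b ∈ P.powerset, Fam b} + ε X g(X)`, `|U| = |Λ|`, and the finite sum is at most the
infinite one (`Q/(p(Q-1)) ≥ 0`). -/
def D_SYS : Prop :=
  ∀ (p : ℕ) [Fact p.Prime] (B B₀ k U Λ C : Type) [Field k] [Fintype k] [Algebra (ZMod p) k]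
    [AddCommGroup U] [Module k U] [Fintype U] [AddCommGroup Λ] [Module k Λ] [Fintype Λ]
    [AddCommGroup C] [Finite C] (S : Sys p B B₀ k U Λ C) (ψ : AddChar k ℂ)
    (ψ₁ : AddChar (ZMod p) ℂ) (g : ℝ → ℝ) (K : ℕ), S.Hyp ψ ψ₁ g K →
    Fintype.card U = Fintype.card Λ →
  ∀ c X₁ : ℝ, (∀ X : ℝ, X₁ ≤ X → ∃ P : Finset B, c * (X * g X) ≤
      ∑ b ∈ P.powerset with S.Fam b, Real.exp (-(S.nm b / X))) →
  (∀ X : ℝ, 0 < X → (Summable fun b : {b : Finset B // S.Fam b} ↦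
      Real.exp (-(S.nm b.1 : ℝ) / X)) ∧
    ∑' b : {b : Finset B // S.Fam b}, Real.exp (-(S.nm b.1 : ℝ) / X) ≤ K * (X * g X)) ∧
  (∀ X : ℝ, 0 < X → X₁ ≤ X → c * (X * g X) ≤
    ∑' b : {b : Finset B // S.Fam b}, Real.exp (-(S.nm b.1 : ℝ) / X)) ∧
  ∀ η : ℝ, 0 < η → ∃ X₀ : ℝ, ∀ X : ℝ, X₀ ≤ X →
    ∑' b : {b : {b : Finset B // S.Fam b} | S.Bad b.1}, Real.exp (-(S.nm b.1.1 : ℝ) / X) ≤
      Fintype.card k / (p * (Fintype.card k - 1)) *
        ∑' b : {b : Finset B // S.Fam b}, Real.exp (-(S.nm b.1 : ℝ) / X) + η * (X * g X)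

/-- **D_ABS** (abstract; from finitely many families to one). `𝒯` is a finite index set; for every `τ` a
set `β τ` with sizes `n` and a subset `bad τ`, with the three properties of `D_SYS`. `Φ` identifies `ι`, up
to finitely many elements, with the disjoint union of the `β τ`, sizes being multiplied by `F τ`. Then
`ι` has the properties in `MOM`.

PROOF. Let `m_τ(X) = ∑_{b ∈ β τ} e^(-n(b)/X)`, `N_τ(X) = #{b ∈ β τ : n(b) ≤ X}` (finite, since these terms are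
`≥ e^(-1)` in a convergent series), `h` the number of the elements which are not in the range of `Φ`;
`K ≥ 1` (`1 ≤ g X ≤ K g X`, and if `K < 1` then `K g X < g X`). (0) `e^(-f(i)/X) = e^(-n(b)/(X/F_τ))` for
`Φ i = (τ, b)`; the sum over the disjoint union is `∑_τ m_τ(X/F_τ)` (finitely many `τ`), and `Φ` is injective.
The sets `{f ≤ X}` are finite for the same reason as above. (1) *Upper bound.* `N_τ(X) ≤ e m_τ(X) ≤
3 K X g(X)`; `#{f ≤ 2 X} ≤ ∑_τ N_τ(2 X/F_τ) ≤ ∑_τ N_τ(2 X) ≤ |𝒯| 6 K X g(2 X) ≤ 6 K² |𝒯| X g(X)` for `X ≥ 1`.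
*Lower bound.* Fix `τ`. For `Y ≥ max(X₁, 1)` and `t ≥ 1`: `m_τ(Y) ≤ N_τ(t Y) + e^(-t/2) m_τ(2 Y)` (for
`n > t Y`: `e^(-n/Y) = e^(-n/(2Y)) e^(-n/(2Y)) ≤ e^(-t/2) e^(-n/(2Y))`), and `m_τ(2 Y) ≤ 2 K Y g(2 Y) ≤ 2 K² Y g(Y)`.
Choose `t` with `2 K² e^(-t/2) ≤ c/2`; so `N_τ(t Y) ≥ (c/2) Y g(Y)`. Let `D = t F_τ`, `2^l ≥ D`. For
`X ≥ 2^l max(X₁, 1)`: `#{f ≤ X} ≥ N_τ(X/F_τ) - h ≥ (c/2) (X/D) g(X/D) - h`, and
`g(X) ≤ K^l g(X/2^l) ≤ K^(l+1) g(X/D)`. So `#{f ≤ X} ≥ 2 c' X g(X) - h ≥ c' X g(X)` for some `c' > 0` and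
all large `X` (`X g(X) ≥ X → ∞`). This gives the doubling property and (2) `ι` is infinite. (3) For
`η > 0`: `∑_{i ∈ Bd} e^(-f(i)/X) ≤ ∑_τ ∑_{b ∈ bad τ} e^(-n(b)/(X/F_τ)) ≤
∑_τ (θ m_τ(X/F_τ) + η' (X/F_τ) g(X/F_τ)) ≤ θ (∑_i e^(-f(i)/X) + h) + η' |𝒯| K X g(X)` for `X` large (depending on
`η'`), and `∑_i e^(-f(i)/X) ≥ e^(-1) #{f ≤ X} ≥ (c'/3) X g(X)` for `X` large. Choose `η'` with
`η' |𝒯| K ≤ η c'/6`; and `θ h ≤ η c' X/6` for large `X`. -/
def D_ABS : Prop :=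
  ∀ (𝒯 : Type) [Fintype 𝒯] [Nonempty 𝒯] (β : 𝒯 → Type) (n : ∀ τ, β τ → ℕ)
    (bad : ∀ τ, Set (β τ)) (F : 𝒯 → ℕ) (g : ℝ → ℝ) (K c X₁ θ : ℝ), (∀ τ, 1 ≤ F τ) → 0 < c →
    0 ≤ θ → Slow g K →
    (∀ τ, ∀ X : ℝ, 0 < X → (Summable fun b : β τ ↦ Real.exp (-(n τ b : ℝ) / X)) ∧
      ∑' b : β τ, Real.exp (-(n τ b : ℝ) / X) ≤ K * (X * g X)) →
    (∀ τ, ∀ X : ℝ, 0 < X → X₁ ≤ X → c * (X * g X) ≤ ∑' b : β τ, Real.exp (-(n τ b : ℝ) / X)) →
    (∀ η : ℝ, 0 < η → ∃ X₀ : ℝ, ∀ τ, ∀ X : ℝ, X₀ ≤ X →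
      ∑' b : bad τ, Real.exp (-(n τ b.1 : ℝ) / X) ≤
        θ * ∑' b : β τ, Real.exp (-(n τ b : ℝ) / X) + η * (X * g X)) →
  ∀ (ι : Type) (f : ι → ℕ) (Bd : Set ι) (Φ : ι → Σ τ, β τ), Function.Injective Φ →
    (Set.range Φ)ᶜ.Finite → (∀ i, f i = F (Φ i).1 * n (Φ i).1 (Φ i).2) →
    (∀ i ∈ Bd, (Φ i).2 ∈ bad (Φ i).1) →
  (∀ X : ℝ, 0 < X → Summable fun i ↦ Real.exp (-(f i : ℝ) / X)) ∧
  (∀ X : ℝ, {i | (f i : ℝ) ≤ X}.Finite) ∧
  (∃ C X₀ : ℝ, 0 < X₀ ∧ ∀ X : ℝ, X₀ ≤ X →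
    ({i | (f i : ℝ) ≤ 2 * X}.ncard : ℝ) ≤ C * {i | (f i : ℝ) ≤ X}.ncard) ∧
  Infinite ι ∧
  ∀ η : ℝ, 0 < η → ∀ᶠ X : ℝ in Filter.atTop,
    ∑' i : Bd, Real.exp (-(f i.1 : ℝ) / X) ≤ (θ + η) * ∑' i, Real.exp (-(f i : ℝ) / X)

open Classical in
/-- **HYP** (interface; proved in parts A and B). For all data `B` and all local classes the systems of
part B satisfy the analytic hypotheses, with a common function `g`, and the family is not too small. -/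
def HYP : Prop :=
  ∀ (p : ℕ) [Fact p.Prime] (K M K₁ M₁ : Type) [Field K] [NumberField K]
    [IsTotallyComplex K] [Field M] [NumberField M] [Field K₁] [NumberField K₁] [Field M₁]
    [NumberField M₁] [Algebra K M] [Algebra K K₁] [Algebra K M₁] [Algebra M M₁] [Algebra K₁ M₁]
    [IsScalarTower K M M₁] [IsScalarTower K K₁ M₁] [IsGalois K M] [IsGalois K K₁] [IsGalois K M₁]
    (ε : K₁), Tower p K M K₁ M₁ ε →
  ∀ (m : ℕ) (δ : M ≃ₐ[K] M) (ζ : ℂ_[p]) (Φ : ℤ_[p][X]) (P : (ZMod p)[X]), PhiData p m ζ Φ P →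
    orderOf δ = m → finrank K M = m → TorOK P δ →
  ∀ [Fact (Irreducible P)] [Fintype (AdjoinRoot P)] (B : Base p K M K₁ M₁ ε δ P),
  ∃ (g : ℝ → ℝ) (K₀ : ℝ), Slow g K₀ ∧
  ∀ (L : IwasawaLog p ℂ_[p]) (T : Set (K →+* ℂ_[p])) (aτ : K₁ˣ) (E : Tau B L T aτ),
    OmType p K ε (aτ : K₁) →
  ∃ (ψ : AddChar (AdjoinRoot P) ℂ) (ψ₁ : AddChar (ZMod p) ℂ) (K' : ℕ),
    (B.sys E).Hyp ψ ψ₁ g K' ∧
  ∃ c X₁ : ℝ, 0 < c ∧ ∀ X : ℝ, X₁ ≤ X → ∃ Q : Finset B.LP, c * (X * g X) ≤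
    ∑ b ∈ Q.powerset with (B.sys E).Fam b, Real.exp (-((B.sys E).nm b / X))

end Pool.Agent.Helper11.PP
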