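import Pool.Agent.Helper11.PP.Core
import Pool.Agent.Helper35.RD.RSP

/-!
# Project PP (MP_fc6b1e_nt, density theorem): the moment theorem in class form
-/

namespace Pool.Agent.Helper11.PP

open NumberField Polynomial Module IsDedekindDomain TensorProduct Pool.Agent.Helper51.SigLeo
open Pool.Agent.Helper51.RP Pool.Agent.Helper42.RD Pool.Agent.Helper11.LE Pool.Agent.Helper42.PP
open Pool.Agent.Helper17.PP
open Pool.Agent.Helper79.PP (clp_eq clp_eq_one nice_val)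

theorem above_trans {K F E : Type} [Field K] [NumberField K] [Field F] [NumberField F] [Field E]
    [NumberField E] [Algebra K F] [Algebra K E] [Algebra F E] [IsScalarTower K F E]
    {v : HeightOneSpectrum (𝓞 K)} {w : HeightOneSpectrum (𝓞 F)} {W : HeightOneSpectrum (𝓞 E)}
    (h1 : Above w v) (h2 : Above W w) : Above W v := by
  change W.asIdeal.comap (algebraMap (𝓞 K) (𝓞 E)) = v.asIdeal
  rw [← h1, ← h2, Ideal.comap_comap, ← IsScalarTower.algebraMap_eq]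

theorem exists_above' {F E : Type} [Field F] [NumberField F] [Field E] [NumberField E]
    [Algebra F E] (w : HeightOneSpectrum (𝓞 F)) : ∃ W : HeightOneSpectrum (𝓞 E), Above W w := by
  have hm : w.asIdeal.IsMaximal := w.isMaximal
  obtain ⟨Q, hQ1, hQ2⟩ := Ideal.exists_maximal_ideal_liesOver_of_isIntegral (S := 𝓞 E) w.asIdeal
  have hne : Q ≠ ⊥ := Ideal.ne_bot_of_liesOver_of_ne_bot w.ne_bot Q
  exact ⟨⟨Q, hQ1.isPrime, hne⟩, hQ2.over.symm⟩

theorem up_finite {K F : Type} [Field K] [NumberField K] [Field F] [NumberField F] [Algebra K F]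
    (S : Finset (HeightOneSpectrum (𝓞 K))) : (up F S).Finite := by
  have h1 : up F S = ⋃ v ∈ S, {w : HeightOneSpectrum (𝓞 F) | Above w v} := by
    ext w
    simp [up]
  rw [h1]
  refine S.finite_toSet.biUnion fun v _ => ?_
  have hm : v.asIdeal.IsMaximal := v.isMaximal
  refine Set.Finite.of_finite_image (f := HeightOneSpectrum.asIdeal) ?_
    (fun a _ b _ h => HeightOneSpectrum.ext h)
  refine (IsDedekindDomain.primesOver_finite v.asIdeal (𝓞 F)).subset ?_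
  rintro _ ⟨w, hw, rfl⟩
  exact ⟨w.isPrime, ⟨hw.symm⟩⟩

theorem slow_mono {g : ℝ → ℝ} {K K' : ℝ} (h : Slow g K) (hK : K ≤ K') : Slow g K' where
  one := h.one
  mono Y X hYX := (h.mono Y X hYX).trans
    (mul_le_mul_of_nonneg_right hK (zero_le_one.trans (h.one X)))
  dbl X hX := (h.dbl X hX).trans
    (mul_le_mul_of_nonneg_right hK (zero_le_one.trans (h.one X)))

/-- Finitely many triples of properties with a common constant. -/
theorem common {ι : Type} [Fintype ι] (Kc c X₁ : ι → ℝ) (hc : ∀ i, 0 < c i) :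
    ∃ K' c' X' : ℝ, (∀ i, Kc i ≤ K') ∧ 0 < c' ∧ (∀ i, c' ≤ c i) ∧ ∀ i, X₁ i ≤ X' := by
  refine ⟨∑ i, |Kc i|, (1 + ∑ i, (c i)⁻¹)⁻¹, ∑ i, |X₁ i|, fun i => ?_, ?_, fun i => ?_,
    fun i => ?_⟩
  · exact (le_abs_self _).trans
      (Finset.single_le_sum (f := fun i => |Kc i|) (fun i _ => abs_nonneg _) (Finset.mem_univ i))
  · have h := Finset.sum_nonneg (f := fun i => (c i)⁻¹) (s := Finset.univ)
      fun i _ => (inv_pos.2 (hc i)).le
    positivity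
  · have h := Finset.single_le_sum (f := fun i => (c i)⁻¹) (s := Finset.univ)
      (fun i _ => (inv_pos.2 (hc i)).le) (Finset.mem_univ i)
    rw [inv_le_comm₀ (by
      have := inv_pos.2 (hc i)
      linarith) (hc i)]
    linarith
  · exact (le_abs_self _).trans
      (Finset.single_le_sum (f := fun i => |X₁ i|) (fun i _ => abs_nonneg _) (Finset.mem_univ i))

theorem mom (hHYP : HYP) (hEXB : P_EXB) (hEXT : P_EXT) (hLAB : P_LAB) (hSEL : P_SEL)
    (hTOW : E_TOW) (hTRF : E_TRF) (hNLS : D_NLS) (hTAU : D_TAU) (hCND : D_CND) (hSYS : D_SYS)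
    (hABS : D_ABS) : MOM := by
  classical
  intro p hpF L K M K₁ M₁ _ _ _ _ _ _ _ _ _ _ _ _ _ _ _ _ _ _ _ ε hT m δ ζ Φ P hPhi hord hm
    hTor T hTc hTn
  have hp : p.Prime := hpF.out
  have hirr : Fact (Irreducible P) := ⟨hPhi.irr⟩
  have hP0 : P ≠ 0 := hPhi.irr.ne_zero
  have hfinA : Module.Finite (ZMod p) (AdjoinRoot P) := (AdjoinRoot.powerBasis hP0).finite
  have hfA : Finite (AdjoinRoot P) := Module.finite_of_finite (ZMod p)
  let instA : Fintype (AdjoinRoot P) := Fintype.ofFinite _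
  have hcard : Fintype.card (AdjoinRoot P) = p ^ P.natDegree := by
    rw [Module.card_eq_pow_finrank (K := ZMod p) (V := AdjoinRoot P), ZMod.card,
      (AdjoinRoot.powerBasis hP0).finrank, AdjoinRoot.powerBasis_dim]
  have hne : Nonempty (AlgebraicClosure ℚ →+* ℂ_[p]) :=
    Pool.Agent.Helper35.RD.nonempty_hom ℚ ℂ_[p]
  obtain ⟨B⟩ := hEXB p ℂ_[p] K M K₁ M₁ ε hT m δ ζ Φ P hPhi hord hm hTor
  obtain ⟨g, K₀, hslow, hH⟩ := hHYP p K M K₁ M₁ ε hT m δ ζ Φ P hPhi hord hm hTor B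
  have hSit : Sit p ℂ_[p] K M K₁ M₁ ε δ P :=
    { tcK := inferInstance
      st1 := inferInstance
      st2 := inferInstance
      gM := inferInstance
      gK := inferInstance
      gMK := inferInstance
      tow := hT
      phi := ⟨ζ, Φ, by rw [hm]; exact hPhi⟩
      ord := hord.trans hm.symm
      tor := hTor }
  obtain ⟨hgM, hgK, -, hcop, -, -⟩ := hTOW p K M K₁ M₁ ε hT
  obtain ⟨F₀, hF₀, huq⟩ := hTAU p K₁ (up K₁ B.S) (up_finite B.S)
    {a : K₁ˣ | OmType p K ε (a : K₁) ∧ NiceU p a}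
  have hF₀1 : ∀ τ : F₀, OmType p K ε ((τ : K₁ˣ) : K₁) := fun τ => (hF₀ τ τ.2).1
  have hE : ∀ τ : F₀, Nonempty (Tau B L T (τ : K₁ˣ)) := by
    intro τ
    refine hEXT p ℂ_[p] hne L K M K₁ M₁ ε hT m δ ζ Φ P hPhi hord hm hTor T hTc hTn B τ (hF₀1 τ) ?_
    intro Q hQ
    refine nice_val (hF₀ τ τ.2).2 Q ?_
    exact (Q.valuation_lt_one_iff_mem (K := K₁) (p : 𝓞 K₁)).1 (by simpa using hQ)
  let E : ∀ τ : F₀, Tau B L T (τ : K₁ˣ) := fun τ => (hE τ).some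
  have hH' : ∀ τ : F₀, ∃ (ψ : AddChar (AdjoinRoot P) ℂ) (ψ₁ : AddChar (ZMod p) ℂ) (K' : ℕ),
      (B.sys (E τ)).Hyp ψ ψ₁ g K' ∧ ∃ c X₁ : ℝ, 0 < c ∧ ∀ X : ℝ, X₁ ≤ X →
        ∃ Q : Finset B.LP, c * (X * g X) ≤ ∑ b ∈ Q.powerset with (B.sys (E τ)).Fam b,
          Real.exp (-((B.sys (E τ)).nm b / X)) := fun τ => hH L T τ (E τ) (hF₀1 τ)
  choose ψ ψ₁ K' hHyp c X₁ hc hlow using hH'
  have hS : ∀ τ : F₀, _ := fun τ => hSYS p B.LP (HeightOneSpectrum (𝓞 K)) (AdjoinRoot P)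
    (Fin B.r → AdjoinRoot P) (Fin B.r → AdjoinRoot P) (Fin B.t → ZMod p) (B.sys (E τ)) (ψ τ) (ψ₁ τ)
    g (K' τ) (hHyp τ) rfl (c τ) (X₁ τ) (hlow τ)
  have hL : ∀ τ : F₀, _ := fun τ => hLAB p ℂ_[p] K M K₁ M₁ ε δ P hSit L T B τ (E τ) (hF₀1 τ)
  obtain ⟨Kc, c', X', hKc, hc', hcc, hX'⟩ := common (fun τ : F₀ => max K₀ (K' τ)) c X₁ hc
  obtain ⟨τ₀⟩ : Nonempty F₀ := by
    have h1 : OmType p K ε ((1 : K₁ˣ) : K₁) := by
      intro σ
      have hε : (σ ε) ^ p = 1 := by rw [← map_pow, hT.prim.pow_eq_one, map_one]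
      have : NeZero p := ⟨hp.ne_zero⟩
      obtain ⟨i, -, hi⟩ := hT.prim.eq_pow_of_pow_eq_one hε
      exact ⟨i, 1, hi.symm, by simp⟩
    obtain ⟨τ, ⟨h2, -⟩, -⟩ := huq 1 ⟨h1, 1, 1, by simp, by simp⟩
    exact ⟨⟨τ, h2⟩⟩
  have hKc0 : Slow g Kc := slow_mono hslow ((le_max_left _ _).trans (hKc τ₀))
  have hθ : (0 : ℝ) ≤ (p : ℝ) ^ P.natDegree / (p * ((p : ℝ) ^ P.natDegree - 1)) := by
    have h1 : (1 : ℝ) ≤ (p : ℝ) ^ P.natDegree := one_le_pow₀ (by exact_mod_cast hp.one_le)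
    have h2 : (0 : ℝ) ≤ (p : ℝ) ^ P.natDegree - 1 := by linarith
    positivity
  have hval : ∀ W : HeightOneSpectrum (𝓞 K₁), ∃ W' : HeightOneSpectrum (𝓞 M₁), Above W' W ∧
      ∀ x : K₁, ((p : ℤ) ∣ ordv W' (algebraMap K₁ M₁ x) ↔ (p : ℤ) ∣ ordv W x) := by
    intro W
    obtain ⟨W', hW'⟩ := exists_above' (E := M₁) W
    exact ⟨W', hW', (hTRF p K₁ M₁ hcop W' W hW').1⟩
  exact core B hNLS hCND hABS F₀ ⟨((τ₀ : K₁ˣ) : K₁), (τ₀ : K₁ˣ).ne_zero, hF₀1 τ₀⟩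
    (fun c hc => hF₀ c hc) (fun a h1 h2 => huq a ⟨h1, h2⟩)
    (fun τ b => (B.sys (E τ)).Fam b) (fun τ b => (B.sys (E τ)).Bad b)
    (fun a ha => ((hL τ₀).1 a ha).1)
    (fun a ha v hv W hW => by
      obtain ⟨W', hW', hx⟩ := hval W
      rw [← hx]
      exact ((hL τ₀).1 a ha).2.1 v hv W' (above_trans hW hW'))
    (fun a ha v hv hv' W hW => by
      obtain ⟨W', hW', hx⟩ := hval W
      rw [← hx]
      exact ((hL τ₀).1 a ha).2.2.1 v hv hv' W' (above_trans hW hW'))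
    (fun τ a ha hl => ((hL τ).1 a ha).2.2.2 hl)
    (fun τ b hb => (hL τ).2.1 b hb)
    (fun τ a a' ha ha' hl hl' hlab => (hL τ).2.2.1 a a' ha ha' hl hl' hlab)
    {c : ClP p K₁ | ∃ x ∈ SelC (M₁ := M₁) L (above T : Set (M →+* ℂ_[p])) P δ c, x ≠ 1}
    (fun τ a hcB ha hl => by
      obtain ⟨x, ⟨y, a₁, hyx, haa, hsel⟩, hx1⟩ := hcB
      obtain ⟨z, hz⟩ := clp_eq.1 haa.symm
      have h1 : OmType p K ε (a₁ : K₁) := by rw [hz]; exact om_mul_pow ha z
      have h2 : LocS p (up K₁ B.S) (a₁ / (τ : K₁ˣ)) := by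
        have h3 := (Pool.Agent.Helper15.PP.gZ p _).mul_mem (Pool.Agent.Helper15.PP.mem_gZ.2 hl)
          (Pool.Agent.Helper15.PP.mem_gZ.2 (locS_pow (p := p) (Z := up K₁ B.S) z))
        have h4 : a₁ / (τ : K₁ˣ) = a / τ * z ^ p := by rw [hz, mul_div_right_comm]
        rw [h4]
        exact Pool.Agent.Helper15.PP.mem_gZ.1 h3
      have h5 := hSEL p ℂ_[p] K M K₁ M₁ ε δ P hSit L T B τ (E τ) (hF₀1 τ) a₁ h1 h2
        ⟨y, hsel, fun hy => hx1 (by rw [← hyx, clp_eq_one]; exact hy)⟩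
      rw [hz, lab_mul_pow] at h5
      exact h5)
    g Kc c' X' _ hc' hθ hKc0
    (fun τ X hX => ⟨((hS τ).1 X hX).1, ((hS τ).1 X hX).2.trans (by
      refine mul_le_mul_of_nonneg_right ((le_max_right _ _).trans (hKc τ)) ?_
      exact mul_nonneg hX.le (zero_le_one.trans (hslow.one X)))⟩)
    (fun τ X hX hX1 => by
      refine le_trans ?_ ((hS τ).2.1 X hX ((hX' τ).trans hX1))
      refine mul_le_mul_of_nonneg_right (hcc τ) ?_
      exact mul_nonneg hX.le (zero_le_one.trans (hslow.one X)))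
    (fun η hη => by
      have h1 : ∀ τ : F₀, _ := fun τ => (hS τ).2.2 η hη
      choose X₀ hX₀ using h1
      refine ⟨∑ τ, |X₀ τ|, fun τ X hX => ?_⟩
      have h2 := hX₀ τ X (((le_abs_self _).trans (Finset.single_le_sum (f := fun τ => |X₀ τ|)
        (fun i _ => abs_nonneg _) (Finset.mem_univ τ))).trans hX)
      rw [hcard, Nat.cast_pow] at h2
      exact h2)

end Pool.Agent.Helper11.PP
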