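import Pool.Agent.Helper11.PP.GoalsE
import Pool.Agent.Helper79.PP.DMAP
import Pool.Agent.Helper15.PP.DTAU
import Pool.Agent.Helper42.PP.Goals2

/-!
# Project PP (MP_fc6b1e_nt, density theorem), part D: from the labels to the classes

The common part of the proofs of `MOM` for `m > 1` and for `m = 1`.
-/

namespace Pool.Agent.Helper11.PP

open NumberField Polynomial Module IsDedekindDomain TensorProduct Pool.Agent.Helper51.SigLeo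
open Pool.Agent.Helper51.RP Pool.Agent.Helper42.RD Pool.Agent.Helper11.LE Pool.Agent.Helper42.PP
open Pool.Agent.Helper17.PP
open Pool.Agent.Helper79.PP (clp_eq clp_one clp_mul clp_pow clp_eq_one ordv_mul_pow)
open Pool.Agent.Helper15.PP (gZ mem_gZ)

theorem locS_mono {p : ℕ} {F : Type} [Field F] [NumberField F] {Z Z' : Set (HeightOneSpectrum (𝓞 F))}
    (h : Z' ⊆ Z) {x : Fˣ} (hx : LocS p Z x) : LocS p Z' x := by
  obtain ⟨y, hy⟩ := hx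
  exact ⟨y, fun w hw => hy w (h hw)⟩

theorem locS_pow {p : ℕ} {F : Type} [Field F] [NumberField F] {Z : Set (HeightOneSpectrum (𝓞 F))}
    (y : Fˣ) : LocS p Z (y ^ p) := by
  refine ⟨y⁻¹, fun w _ => ?_⟩
  have h1 : (((y ^ p : Fˣ) : F) * ((y⁻¹ : Fˣ) : F) ^ p) = 1 := by
    rw [← Units.val_pow_eq_pow_val, ← Units.val_mul, inv_pow, mul_inv_cancel, Units.val_one]
  rw [h1]
  exact Pool.Agent.Helper15.PP.At.one p w

theorem ordp_mul_pow {p : ℕ} {F : Type} [Field F] [NumberField F] (w : HeightOneSpectrum (𝓞 F))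
    (a y : Fˣ) : ordp p w (a * y ^ p) = ordp p w a := by
  unfold ordp
  rw [ordv_mul_pow]
  push_cast
  rw [CharP.cast_eq_zero, zero_mul, add_zero]

theorem om_one {p : ℕ} {K K₁ : Type} [Field K] [Field K₁] [Algebra K K₁] {ε : K₁}
    (h : ∃ a : K₁, a ≠ 0 ∧ OmType p K ε a) : OmType p K ε (1 : K₁) := by
  obtain ⟨a, -, h⟩ := h
  intro τ
  obtain ⟨n, -, h1, -⟩ := h τ
  exact ⟨n, 1, h1, by simp⟩

theorem om_mul_pow {p : ℕ} {K K₁ : Type} [Field K] [Field K₁] [Algebra K K₁] {ε : K₁} {a : K₁ˣ}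
    (h : OmType p K ε (a : K₁)) (y : K₁ˣ) : OmType p K ε ((a * y ^ p : K₁ˣ) : K₁) := by
  intro τ
  obtain ⟨n, c, h1, h2⟩ := h τ
  refine ⟨n, c * τ (y : K₁) * ((y⁻¹ : K₁ˣ) : K₁) ^ n, h1, ?_⟩
  have hy : (y : K₁) * ((y⁻¹ : K₁ˣ) : K₁) = 1 := by rw [← Units.val_mul, mul_inv_cancel, Units.val_one]
  rw [Units.val_mul, Units.val_pow_eq_pow_val, map_mul, map_pow, h2, mul_pow, mul_pow, mul_pow]
  have h3 : ((y : K₁) ^ p) ^ n * (((y⁻¹ : K₁ˣ) : K₁) ^ n) ^ p = 1 := by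
    rw [← pow_mul, ← pow_mul, mul_comm n p, ← mul_pow, hy, one_pow]
  calc (a : K₁) ^ n * c ^ p * τ (y : K₁) ^ p
      = (a : K₁) ^ n * c ^ p * τ (y : K₁) ^ p *
        (((y : K₁) ^ p) ^ n * (((y⁻¹ : K₁ˣ) : K₁) ^ n) ^ p) := by rw [h3, mul_one]
    _ = _ := by ring

theorem fT_pos (p : ℕ) {K K₁ : Type} [Field K] [NumberField K] [Field K₁] [NumberField K₁]
    [Algebra K K₁] (S : Finset (HeightOneSpectrum (𝓞 K))) (a : K₁ˣ) : 1 ≤ fT p S a := by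
  unfold fT
  refine finprod_induction (fun n : ℕ => 1 ≤ n) le_rfl (fun x y hx hy => Nat.mul_pos hx hy)
    fun v => ?_
  refine finprod_induction (fun n : ℕ => 1 ≤ n) le_rfl (fun x y hx hy => Nat.mul_pos hx hy)
    fun _ => ?_
  rw [Nat.one_le_iff_ne_zero, Ne, Ideal.absNorm_eq_zero_iff]
  exact v.ne_bot

section core

variable {p : ℕ} [Fact p.Prime] {K M K₁ M₁ : Type} [Field K] [NumberField K] [Field M]
    [NumberField M] [Field K₁] [NumberField K₁] [Field M₁] [NumberField M₁] [Algebra K M]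
    [Algebra K K₁] [Algebra K M₁] [Algebra M M₁] [Algebra K₁ M₁] {ε : K₁} {δ : M ≃ₐ[K] M}
    {P : (ZMod p)[X]} (B : Base p K M K₁ M₁ ε δ P)

theorem lab_mul_pow (a y : K₁ˣ) : B.lab (a * y ^ p) = B.lab a := by
  have h : B.labs (a * y ^ p) = B.labs a := by
    ext q
    change ordp p (B.Q q.1.1) (a * y ^ p) = _ ↔ ordp p (B.Q q.1.1) a = _
    rw [ordp_mul_pow]
  unfold Base.lab
  rw [h]

theorem mem_lab {a : K₁ˣ} (h : (B.labs a).Finite) (q : B.LP) :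
    q ∈ B.lab a ↔ ordp p (B.Q q.1.1) a = (q.1.2 : ZMod p) := by
  unfold Base.lab
  rw [dif_pos h, Set.Finite.mem_toFinset]
  rfl

theorem core (hNLS : D_NLS) (hCND : D_CND) (hABS : D_ABS) (F₀ : Finset K₁ˣ)
    (hε : ∃ a : K₁, a ≠ 0 ∧ OmType p K ε a)
    (hF₀ : ∀ c ∈ F₀, OmType p K ε (c : K₁) ∧ NiceU p c)
    (huq : ∀ a : K₁ˣ, OmType p K ε (a : K₁) → NiceU p a →
      ∃! c, c ∈ F₀ ∧ LocS p (up K₁ B.S) (a / c))
    (Fam Bad : F₀ → Finset B.LP → Prop)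
    (hfin : ∀ a : K₁ˣ, OmType p K ε (a : K₁) → (B.labs a).Finite)
    (hval1 : ∀ a : K₁ˣ, OmType p K ε (a : K₁) → ∀ v ∈ B.calP,
      ∀ W : HeightOneSpectrum (𝓞 K₁), Above W v →
      ((p : ℤ) ∣ ordv W (a : K₁) ↔ ordp p (B.Q v) a = 0))
    (hval2 : ∀ a : K₁ˣ, OmType p K ε (a : K₁) → ∀ v ∉ B.S, v ∉ B.calP →
      ∀ W : HeightOneSpectrum (𝓞 K₁), Above W v → (p : ℤ) ∣ ordv W (a : K₁))
    (hfam : ∀ (τ : F₀) (a : K₁ˣ), OmType p K ε (a : K₁) → LocS p (up K₁ B.S) (a / τ) →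
      Fam τ (B.lab a))
    (hex : ∀ (τ : F₀) (b : Finset B.LP), Fam τ b → ∃ a : K₁ˣ, OmType p K ε (a : K₁) ∧
      LocS p (up K₁ B.S) (a / τ) ∧ B.lab a = b)
    (huni : ∀ (τ : F₀) (a a' : K₁ˣ), OmType p K ε (a : K₁) → OmType p K ε (a' : K₁) →
      LocS p (up K₁ B.S) (a / τ) → LocS p (up K₁ B.S) (a' / τ) → B.lab a = B.lab a' →
      Pw p (a / a'))
    (Bd : Set (ClP p K₁))
    (hbad : ∀ (τ : F₀) (a : K₁ˣ), clp p a ∈ Bd → OmType p K ε (a : K₁) →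
      LocS p (up K₁ B.S) (a / τ) → Bad τ (B.lab a))
    (g : ℝ → ℝ) (Kc c X₁ θ : ℝ) (hc : 0 < c) (hθ : 0 ≤ θ) (hg : Slow g Kc)
    (ha1 : ∀ τ : F₀, ∀ X : ℝ, 0 < X → (Summable fun b : {b : Finset B.LP // Fam τ b} ↦
        Real.exp (-((∏ q ∈ b.1, Ideal.absNorm q.1.1.asIdeal : ℕ) : ℝ) / X)) ∧
      ∑' b : {b : Finset B.LP // Fam τ b},
        Real.exp (-((∏ q ∈ b.1, Ideal.absNorm q.1.1.asIdeal : ℕ) : ℝ) / X) ≤ Kc * (X * g X))
    (ha2 : ∀ τ : F₀, ∀ X : ℝ, 0 < X → X₁ ≤ X → c * (X * g X) ≤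
      ∑' b : {b : Finset B.LP // Fam τ b},
        Real.exp (-((∏ q ∈ b.1, Ideal.absNorm q.1.1.asIdeal : ℕ) : ℝ) / X))
    (ha3 : ∀ η : ℝ, 0 < η → ∃ X₀ : ℝ, ∀ τ : F₀, ∀ X : ℝ, X₀ ≤ X →
      ∑' b : {b : {b : Finset B.LP // Fam τ b} | Bad τ b.1},
        Real.exp (-((∏ q ∈ b.1.1, Ideal.absNorm q.1.1.asIdeal : ℕ) : ℝ) / X) ≤
      θ * ∑' b : {b : Finset B.LP // Fam τ b},
        Real.exp (-((∏ q ∈ b.1, Ideal.absNorm q.1.1.asIdeal : ℕ) : ℝ) / X) + η * (X * g X)) :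
  (∀ X : ℝ, 0 < X → Summable fun c : ASet p K ε ↦ Real.exp (-(condC K c.1 : ℝ) / X)) ∧
  (∀ X : ℝ, {c | c ∈ ASet p K ε ∧ (condC K c : ℝ) ≤ X}.Finite) ∧
  (∃ C X₀ : ℝ, 0 < X₀ ∧ ∀ X : ℝ, X₀ ≤ X →
    ({c | c ∈ ASet p K ε ∧ (condC K c : ℝ) ≤ 2 * X}.ncard : ℝ) ≤
      C * {c | c ∈ ASet p K ε ∧ (condC K c : ℝ) ≤ X}.ncard) ∧
  (ASet p K ε).Infinite ∧
  ∀ η : ℝ, 0 < η → ∀ᶠ X : ℝ in Filter.atTop,
    ∑' c : {c | c ∈ ASet p K ε ∧ c ∈ Bd}, Real.exp (-(condC K c.1 : ℝ) / X) ≤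
    (θ + η) * ∑' c : ASet p K ε, Real.exp (-(condC K c.1 : ℝ) / X) := by
  classical
  have hp : p.Prime := Fact.out
  -- the local conditions at `p`
  have hZp : {W : HeightOneSpectrum (𝓞 K₁) | (p : 𝓞 K₁) ∈ W.asIdeal} ⊆ up K₁ B.S := by
    intro W hW
    refine ⟨W.under (𝓞 K), B.abp _ ?_, rfl⟩
    have h1 : (p : 𝓞 K) ∈ (W.under (𝓞 K)).asIdeal := by
      change (p : 𝓞 K) ∈ W.asIdeal.comap (algebraMap (𝓞 K) (𝓞 K₁))
      rw [Ideal.mem_comap, map_natCast]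
      exact hW
    have h2 := ((W.under (𝓞 K)).valuation_lt_one_iff_mem (K := K) (p : 𝓞 K)).2 h1
    simpa using h2
  have hnice : ∀ a b : K₁ˣ, NiceU p b → LocS p (up K₁ B.S) (a / b) → NiceU p a := by
    intro a b hb hab
    rw [hNLS] at hb ⊢
    have h1 := (gZ p _).mul_mem (mem_gZ.2 (locS_mono hZp hab)) (mem_gZ.2 hb)
    rw [div_mul_cancel] at h1
    exact mem_gZ.1 h1
  -- representatives
  have hrep : ∀ c : ASet p K ε, ∃ a : K₁ˣ, clp p a = c.1 ∧ OmType p K ε (a : K₁) ∧ NiceU p a :=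
    fun c => c.2.2
  choose ra hra1 hra2 hra3 using hrep
  have hτ : ∀ c : ASet p K ε, ∃ τ : F₀, LocS p (up K₁ B.S) (ra c / τ) := by
    intro c
    obtain ⟨τ, ⟨h1, h2⟩, -⟩ := huq (ra c) (hra2 c) (hra3 c)
    exact ⟨⟨τ, h1⟩, h2⟩
  choose rt hrt using hτ
  have huq' : ∀ (a : K₁ˣ) (τ τ' : F₀), OmType p K ε (a : K₁) → NiceU p a →
      LocS p (up K₁ B.S) (a / τ) → LocS p (up K₁ B.S) (a / τ') → τ = τ' := by
    intro a τ τ' h1 h2 h3 h4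
    obtain ⟨σ, -, h5⟩ := huq a h1 h2
    exact Subtype.ext ((h5 _ ⟨τ.2, h3⟩).trans (h5 _ ⟨τ'.2, h4⟩).symm)
  let β : F₀ → Type := fun τ => {b : Finset B.LP // Fam τ b}
  let n : ∀ τ, β τ → ℕ := fun τ b => ∏ q ∈ b.1, Ideal.absNorm q.1.1.asIdeal
  let bad : ∀ τ, Set (β τ) := fun τ => {b | Bad τ b.1}
  let Φ : ASet p K ε → Σ τ, β τ := fun c =>
    ⟨rt c, ⟨B.lab (ra c), hfam (rt c) (ra c) (hra2 c) (hrt c)⟩⟩
  have hom1 : OmType p K ε ((1 : K₁ˣ) : K₁) := om_one hε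
  have hnice1 : NiceU p (1 : K₁ˣ) := ⟨1, 1, by simp, by simp⟩
  obtain ⟨τ₁, ⟨hτ₁, hl1⟩, -⟩ := huq 1 hom1 hnice1
  have hne : Nonempty F₀ := ⟨⟨τ₁, hτ₁⟩⟩
  have hΦ : Function.Injective Φ := by
    intro c c' h
    have h1 : rt c = rt c' := congrArg (fun x : Σ τ, β τ => x.1) h
    have h2 : B.lab (ra c) = B.lab (ra c') := congrArg (fun x : Σ τ, β τ => x.2.1) h
    have h3 := huni (rt c) (ra c) (ra c') (hra2 c) (hra2 c') (hrt c) (by rw [h1]; exact hrt c') h2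
    apply Subtype.ext
    rw [← hra1 c, ← hra1 c']
    obtain ⟨y, hy⟩ := h3
    rw [eq_comm, clp_eq]
    exact ⟨y, by rw [← hy, mul_div_cancel]⟩
  have hrange : (Set.range Φ)ᶜ.Finite := by
    let x₀ : Σ τ, β τ := ⟨⟨τ₁, hτ₁⟩, ⟨B.lab 1, hfam ⟨τ₁, hτ₁⟩ 1 hom1 hl1⟩⟩
    refine (Set.finite_singleton x₀).subset ?_
    rintro ⟨τ, ⟨b, hb⟩⟩ hx
    obtain ⟨a, ha1, ha2, ha3⟩ := hex τ b hb
    have ha4 : NiceU p a := hnice a τ (hF₀ τ τ.2).2 ha2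
    have haP : Pw p a := by
      by_contra haP
      have hc : clp p a ∈ ASet p K ε := ⟨by rwa [Ne, clp_eq_one], a, rfl, ha1, ha4⟩
      apply hx
      refine ⟨⟨clp p a, hc⟩, ?_⟩
      set c : ASet p K ε := ⟨clp p a, hc⟩ with hcdef
      obtain ⟨y, hy⟩ := clp_eq.1 (hra1 c).symm
      have h1 : LocS p (up K₁ B.S) (ra c / τ) := by
        have h2 := (gZ p _).mul_mem (mem_gZ.2 ha2)
          (mem_gZ.2 (locS_pow (p := p) (Z := up K₁ B.S) y))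
        have h3 : ra c / (τ : K₁ˣ) = a / τ * y ^ p := by
          rw [hy, mul_div_right_comm]
        rw [h3]
        exact mem_gZ.1 h2
      have h2 : rt c = τ := huq' (ra c) _ _ (hra2 c) (hra3 c) (hrt c) h1
      have h3 : B.lab (ra c) = b := by rw [hy, lab_mul_pow, ha3]
      subst h2
      subst h3
      rfl
    obtain ⟨y, hy⟩ := haP
    have h1 : B.lab a = B.lab 1 := by rw [hy, ← lab_mul_pow B 1 y, one_mul]
    have h2 : LocS p (up K₁ B.S) (1 / (τ : K₁ˣ)) := by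
      have h3 := (gZ p _).mul_mem (mem_gZ.2 ha2)
        ((gZ p _).inv_mem (mem_gZ.2 (locS_pow (p := p) (Z := up K₁ B.S) y)))
      have h4 : a / (τ : K₁ˣ) * (y ^ p)⁻¹ = 1 / τ := by
        rw [hy, div_eq_mul_inv, one_div, mul_right_comm, mul_inv_cancel, one_mul]
      rw [h4] at h3
      exact mem_gZ.1 h3
    have h3 : τ = ⟨τ₁, hτ₁⟩ := huq' 1 _ _ hom1 hnice1 h2 hl1
    have h4 : b = B.lab 1 := by rw [← ha3, h1]
    subst h3
    subst h4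
    rfl
  have hcond : ∀ c : ASet p K ε,
      condC K c.1 = fT p B.S ((Φ c).1 : K₁ˣ) * n (Φ c).1 (Φ c).2 := by
    intro c
    have h := hCND p K K₁ B.S B.calP B.Q (ra c) (rt c) (B.lab (ra c)) (fun v hv => hv.1) (hrt c)
      (hval1 (ra c) (hra2 c)) (fun v hv => (B.Qa v hv).1) (hval2 (ra c) (hra2 c))
      (mem_lab B (hfin (ra c) (hra2 c)))
    rw [hra1 c] at h
    exact h
  have hbd : ∀ c ∈ {c : ASet p K ε | c.1 ∈ Bd}, (Φ c).2 ∈ bad (Φ c).1 := by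
    intro c hcB
    exact hbad (rt c) (ra c) (by rw [hra1 c]; exact hcB) (hra2 c) (hrt c)
  obtain ⟨r0, r1, ⟨C, X₀, hX₀, r2⟩, r3, r4⟩ := hABS F₀ β n bad (fun τ => fT p B.S (τ : K₁ˣ)) g Kc c
    X₁ θ (fun τ => fT_pos p B.S _) hc hθ hg ha1 ha2 ha3 (ASet p K ε) (fun c => condC K c.1)
    {c : ASet p K ε | c.1 ∈ Bd} Φ hΦ hrange hcond hbd
  have hset : ∀ X : ℝ, {c | c ∈ ASet p K ε ∧ (condC K c : ℝ) ≤ X} =
      Subtype.val '' {c : ASet p K ε | (condC K c.1 : ℝ) ≤ X} := by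
    intro X
    ext c
    constructor
    · rintro ⟨h1, h2⟩
      exact ⟨⟨c, h1⟩, h2, rfl⟩
    · rintro ⟨c, h1, rfl⟩
      exact ⟨c.2, h1⟩
  refine ⟨r0, ?_, ⟨C, X₀, hX₀, ?_⟩, ?_, ?_⟩
  · intro X
    rw [hset]
    exact (r1 X).image _
  · intro X hX
    rw [hset, hset, Set.ncard_image_of_injective _ Subtype.val_injective,
      Set.ncard_image_of_injective _ Subtype.val_injective]
    exact r2 X hX
  · exact Set.infinite_coe_iff.1 r3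
  · intro η hη
    filter_upwards [r4 η hη] with X hX
    refine le_of_eq_of_le ?_ hX
    exact ((Equiv.subtypeSubtypeEquivSubtypeInter (fun c : ClP p K₁ => c ∈ ASet p K ε)
      (fun c => c ∈ Bd)).tsum_eq (fun c => Real.exp (-(condC K c.1 : ℝ) / X))).symm

end core

end Pool.Agent.Helper11.PP
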