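import Pool.Agent.Helper11.PP.GoalsD
import Pool.Agent.Helper79.RD.GOO1

/-!
# Project PP (MP_fc6b1e_nt), packet PP-DLIN: two elements which belong to the same field
-/

namespace Pool.Agent.Helper11.PP

open NumberField Polynomial Module IsDedekindDomain TensorProduct Pool.Agent.Helper51.SigLeo
open Pool.Agent.Helper51.RP Pool.Agent.Helper42.RD Pool.Agent.Helper11.LE
open Pool.Agent.Helper79.RD (mem_of_fixed exists_kummer)

/-- Automorphisms of the closure, restricted to a cyclic extension of prime degree. -/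
theorem exists_pow_eq_on {K Ω : Type} [Field K] [Field Ω] [Algebra K Ω] [Normal K Ω] {p : ℕ}
    (hp : p.Prime) {N : IntermediateField K Ω} (hN : finrank K N = p) (hg : IsGalois K N)
    (g h : Ω ≃ₐ[K] Ω) (hgN : ¬ ∀ y ∈ N, g y = y) : ∃ k : ℕ, ∀ y ∈ N, h y = (g ^ k) y := by
  have hfin : FiniteDimensional K N := FiniteDimensional.of_finrank_pos (by
    rw [hN]; exact hp.pos)
  have hcard : Nat.card (N ≃ₐ[K] N) = p := by rw [IsGalois.card_aut_eq_finrank, hN]
  have : Fact p.Prime := ⟨hp⟩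
  have h1 : AlgEquiv.restrictNormalHom N g ≠ 1 := by
    intro h1
    apply hgN
    intro y hy
    have h2 := AlgEquiv.restrictNormalHom_apply N g ⟨y, hy⟩
    rw [h1] at h2
    exact h2.symm
  have h2 := mem_powers_of_prime_card (G := N ≃ₐ[K] N) hcard
    (g' := AlgEquiv.restrictNormalHom N h) h1
  obtain ⟨k, hk⟩ := h2
  refine ⟨k, fun y hy => ?_⟩
  have hk' : AlgEquiv.restrictNormalHom N (g ^ k) = AlgEquiv.restrictNormalHom N h := by
    rw [map_pow]; exact hk
  have h3 := AlgEquiv.restrictNormalHom_apply N (g ^ k) ⟨y, hy⟩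
  have h4 := AlgEquiv.restrictNormalHom_apply N h ⟨y, hy⟩
  rw [hk'] at h3
  exact h4.symm.trans h3

/-- There is an automorphism which fixes `j(K₁)` and moves the root. -/
theorem exists_move {p : ℕ} (hp : p.Prime) {K K₁ : Type} [Field K] [Field K₁] [Algebra K K₁]
    {ε : K₁} (hε : IsPrimitiveRoot ε p) (j : K₁ →+* AlgebraicClosure K)
    (hj : ∀ x : K, j (algebraMap K K₁ x) = algebraMap K (AlgebraicClosure K) x)
    {a : K₁ˣ} (ha : ¬ Pw p a) {s : AlgebraicClosure K} (hs : s ^ p = j (a : K₁)) :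
    ∃ g : AlgebraicClosure K ≃ₐ[K] AlgebraicClosure K, (∀ x : K₁, g (j x) = j x) ∧
      g s = j ε * s := by
  have hr : ∀ b : K₁, b ^ p ≠ (a : K₁) := by
    intro b hb
    apply ha
    have hb0 : b ≠ 0 := by
      rintro rfl
      rw [zero_pow hp.ne_zero] at hb
      exact a.ne_zero hb.symm
    exact ⟨Units.mk0 b hb0, Units.ext hb.symm⟩
  let _ : Algebra K₁ (AlgebraicClosure K) := j.toAlgebra
  have ht : IsScalarTower K K₁ (AlgebraicClosure K) :=
    IsScalarTower.of_algebraMap_eq fun c => (hj c).symm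
  have hn : Normal K₁ (AlgebraicClosure K) := Normal.tower_top_of_normal K K₁ (AlgebraicClosure K)
  obtain ⟨-, g, hg⟩ := exists_kummer hp hε (s := s) (a := (a : K₁)) hs hr
  exact ⟨g.restrictScalars K, fun x => g.commutes x, hg⟩

/-- An element which is fixed by all automorphisms over `j(K₁)` is in `j(K₁)`. -/
theorem exists_of_fixed {K K₁ : Type} [Field K] [CharZero K] [Field K₁] [Algebra K K₁]
    (j : K₁ →+* AlgebraicClosure K)
    (hj : ∀ x : K, j (algebraMap K K₁ x) = algebraMap K (AlgebraicClosure K) x)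
    {s : AlgebraicClosure K}
    (h : ∀ g : AlgebraicClosure K ≃ₐ[K] AlgebraicClosure K, (∀ x : K₁, g (j x) = j x) → g s = s) :
    ∃ y : K₁, j y = s := by
  let jK : K₁ →ₐ[K] AlgebraicClosure K := { j with commutes' := hj }
  have hs : s ∈ jK.fieldRange := mem_of_fixed fun g hg => h g fun x => hg _ ⟨x, rfl⟩
  exact hs

theorem d_lin : Pool.Agent.Helper11.PP.D_LIN := by
  intro p hpF K K₁ _ _ _ _ _ ε hC j hj N hN a a' ha ha' hg hg'
  have hp : p.Prime := hpF.out
  have hne : NeZero p := ⟨hp.ne_zero⟩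
  obtain ⟨hNp, hNg⟩ := hN
  have hε : IsPrimitiveRoot (j ε) p := hC.prim.map_of_injective j.injective
  obtain ⟨s, hs⟩ := IsAlgClosed.exists_pow_nat_eq (j (a : K₁)) hp.pos
  obtain ⟨s', hs'⟩ := IsAlgClosed.exists_pow_nat_eq (j (a' : K₁)) hp.pos
  have hj0 : ∀ b : K₁ˣ, j (b : K₁) ≠ 0 := fun b => by
    rw [Ne, map_eq_zero_iff _ j.injective]
    exact b.ne_zero
  have hs0 : s ≠ 0 := by
    rintro rfl
    rw [zero_pow hp.ne_zero] at hs
    exact hj0 a hs.symm
  have hs0' : s' ≠ 0 := by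
    rintro rfl
    rw [zero_pow hp.ne_zero] at hs'
    exact hj0 a' hs'.symm
  obtain ⟨g, hgj, hgs⟩ := exists_move hp hC.prim j hj ha hs
  obtain ⟨g', hgj', hgs'⟩ := exists_move hp hC.prim j hj ha' hs'
  have hε1 : j ε ≠ 1 := hε.ne_one hp.one_lt
  have hgN : ¬ ∀ y ∈ N, g y = y := by
    intro h
    have h1 := hg s hs g h hgj
    rw [hgs] at h1
    exact hε1 ((mul_eq_right₀ hs0).1 h1)
  have hpowj : ∀ (k : ℕ) (x : K₁), (g ^ k) (j x) = j x := by
    intro k x
    induction k with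
    | zero => rfl
    | succ k ih => rw [pow_succ, AlgEquiv.mul_apply, hgj, ih]
  -- everything over `j(K₁)` acts as a power of `g`
  have key : ∀ h : AlgebraicClosure K ≃ₐ[K] AlgebraicClosure K, (∀ x : K₁, h (j x) = j x) →
      ∃ k : ℕ, h s = (g ^ k) s ∧ h s' = (g ^ k) s' := by
    intro h hh
    obtain ⟨k, hk⟩ := exists_pow_eq_on hp hNp hNg g h hgN
    have h1 : ∀ y ∈ N, ((g ^ k)⁻¹ * h) y = y := by
      intro y hy
      change (g ^ k).symm (h y) = y
      rw [hk y hy, AlgEquiv.symm_apply_apply]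
    have h2 : ∀ x : K₁, ((g ^ k)⁻¹ * h) (j x) = j x := by
      intro x
      change (g ^ k).symm (h (j x)) = j x
      rw [hh, AlgEquiv.symm_apply_eq, hpowj]
    have h3 : (g ^ k).symm (h s) = s := hg s hs _ h1 h2
    have h4 : (g ^ k).symm (h s') = s' := hg' s' hs' _ h1 h2
    rw [AlgEquiv.symm_apply_eq] at h3 h4
    exact ⟨k, h3, h4⟩
  -- the action on `s'`
  have hgs1 : (g s' / s') ^ p = 1 := by
    rw [div_pow, ← map_pow, hs', hgj, div_self (hj0 a')]
  obtain ⟨i, -, hi⟩ := hε.eq_pow_of_pow_eq_one hgs1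
  have hi' : g s' = j ε ^ i * s' := by rw [hi, div_mul_cancel₀ _ hs0']
  have hpi : ¬ p ∣ i := by
    rintro ⟨d, rfl⟩
    rw [pow_mul, hε.pow_eq_one, one_pow, one_mul] at hi'
    have h1 : ∀ k : ℕ, (g ^ k) s' = s' := by
      intro k
      induction k with
      | zero => rfl
      | succ k ih => rw [pow_succ, AlgEquiv.mul_apply, hi', ih]
    obtain ⟨k, -, hk⟩ := key g' hgj'
    rw [h1, hgs'] at hk
    exact hε1 ((mul_eq_right₀ hs0').1 hk)
  have hfix : ∃ c : K₁, j c = s' / s ^ i := by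
    refine exists_of_fixed j hj fun h hh => ?_
    obtain ⟨k, hk1, hk2⟩ := key h hh
    rw [map_div₀, map_pow, hk1, hk2]
    have h1 : g (s' / s ^ i) = s' / s ^ i := by
      rw [map_div₀, map_pow, hgs, hi', mul_pow]
      exact mul_div_mul_left _ _ (pow_ne_zero _ (hj0 (Units.mk0 ε (hC.prim.ne_zero hp.ne_zero))))
    have h2 : ∀ k : ℕ, (g ^ k) (s' / s ^ i) = s' / s ^ i := by
      intro k
      induction k with
      | zero => rfl
      | succ k ih => rw [pow_succ, AlgEquiv.mul_apply, h1, ih]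
    have h3 := h2 k
    rwa [map_div₀, map_pow] at h3
  obtain ⟨c, hc⟩ := hfix
  have hc0 : c ≠ 0 := by
    rintro rfl
    rw [map_zero] at hc
    exact div_ne_zero hs0' (pow_ne_zero _ hs0) hc.symm
  refine ⟨i, Units.mk0 c hc0, hpi, Units.ext (j.injective ?_)⟩
  rw [Units.val_mul, Units.val_pow_eq_pow_val, Units.val_pow_eq_pow_val, map_mul, map_pow, map_pow,
    Units.val_mk0, hc, ← hs, ← hs', div_pow, ← pow_mul, ← pow_mul, mul_comm p i,
    mul_div_cancel₀ _ (pow_ne_zero _ hs0)]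

end Pool.Agent.Helper11.PP
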