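import Pool.Agent.Helper11.LE.Defs

/-!
# Project PP (MP_fc6b1e_nt, density theorem), part D: definitions for the fields `N`

`K` is a number field, `p` a prime, `Ω` the algebraic closure of `K`. `K₁ = K(ε)`, `ε` a primitive `p`-th
root of unity, is an abstract field (`LE.Cyc`) with an embedding `j : K₁ → Ω` over `K`.
-/

namespace Pool.Agent.Helper11.PP

open NumberField Polynomial Module IsDedekindDomain TensorProduct Pool.Agent.Helper51.SigLeo
open Pool.Agent.Helper51.RP Pool.Agent.Helper42.RD Pool.Agent.Helper11.LE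

/-- The prime `V` of `N` is above the prime `v` of `K` (as `RP.Above`, for arbitrary fields `N`). -/
def Ab {K N : Type} [Field K] [Field N] [Algebra K N] (V : HeightOneSpectrum (𝓞 N))
    (v : HeightOneSpectrum (𝓞 K)) : Prop :=
  V.asIdeal.comap (algebraMap (𝓞 K) (𝓞 N)) = v.asIdeal

/-- The prime `v` of `K` is ramified in `N`: `v 𝓞_N ⊆ V²` for some prime `V` of `N` above `v`. -/
def RamIn {K : Type} [Field K] (N : Type) [Field N] [Algebra K N] (v : HeightOneSpectrum (𝓞 K)) :
    Prop :=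
  ∃ V : HeightOneSpectrum (𝓞 N), Ab V v ∧
    v.asIdeal.map (algebraMap (𝓞 K) (𝓞 N)) ≤ V.asIdeal ^ 2

/-- The product of the norms of the primes of `K` which are ramified in `N`. -/
noncomputable def cond (K N : Type) [Field K] [NumberField K] [Field N] [Algebra K N] : ℕ :=
  ∏ᶠ (v : HeightOneSpectrum (𝓞 K)) (_ : RamIn N v), Ideal.absNorm v.asIdeal

/-- There are exactly `p` primes of `N` above `v`. -/
def SplitsIn (p : ℕ) {K : Type} [Field K] (N : Type) [Field N] [Algebra K N]
    (v : HeightOneSpectrum (𝓞 K)) : Prop :=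
  {V : HeightOneSpectrum (𝓞 N) | Ab V v}.ncard = p

/-- The cyclic extensions of degree `p` of `K` in its algebraic closure. -/
def CycN (p : ℕ) (K : Type) [Field K] : Set (IntermediateField K (AlgebraicClosure K)) :=
  {N | finrank K N = p ∧ IsGalois K N}

/-- The cyclic extensions of degree `p` of `K` in which the primes above `p` split completely. -/
def CycF (p : ℕ) (K : Type) [Field K] : Set (IntermediateField K (AlgebraicClosure K)) :=
  {N | finrank K N = p ∧ IsGalois K N ∧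
    ∀ v : HeightOneSpectrum (𝓞 K), (p : 𝓞 K) ∈ v.asIdeal → SplitsIn p N v}

/-- The `p`-th roots of `j a` are in the compositum of `N` and `j(K₁)` (in terms of the automorphisms of
the algebraic closure). -/
def Gen (p : ℕ) {K K₁ : Type} [Field K] [Field K₁] (j : K₁ →+* AlgebraicClosure K)
    (a : K₁ˣ) (N : IntermediateField K (AlgebraicClosure K)) : Prop :=
  ∀ s : AlgebraicClosure K, s ^ p = j (a : K₁) →
    ∀ g : AlgebraicClosure K ≃ₐ[K] AlgebraicClosure K, (∀ y ∈ N, g y = y) →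
      (∀ x : K₁, g (j x) = j x) → g s = s

/-- `K₁ˣ` modulo `p`-th powers. -/
abbrev ClP (p : ℕ) (F : Type) [Field F] : Type := Fˣ ⧸ (powMonoidHom p : Fˣ →* Fˣ).range

/-- The class of `a`. -/
def clp (p : ℕ) {F : Type} [Field F] (a : Fˣ) : ClP p F := QuotientGroup.mk a

/-- `a` is, up to a `p`-th power, an algebraic integer `≡ 1 mod p³`. -/
def NiceU (p : ℕ) {K₁ : Type} [Field K₁] (a : K₁ˣ) : Prop :=
  ∃ (b : 𝓞 K₁) (y : K₁ˣ), (p : 𝓞 K₁) ^ 3 ∣ b - 1 ∧ (b : K₁) = (a : K₁) * (y : K₁) ^ p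

/-- The nontrivial classes of type `ω`. -/
def BSet (p : ℕ) (K : Type) {K₁ : Type} [Field K] [Field K₁] [Algebra K K₁] (ε : K₁) :
    Set (ClP p K₁) :=
  {c | c ≠ 1 ∧ ∃ a : K₁ˣ, clp p a = c ∧ OmType p K ε (a : K₁)}

/-- The nontrivial classes of type `ω` with a representative `≡ 1 mod p³`. -/
def ASet (p : ℕ) (K : Type) {K₁ : Type} [Field K] [Field K₁] [Algebra K K₁] (ε : K₁) :
    Set (ClP p K₁) :=
  {c | c ≠ 1 ∧ ∃ a : K₁ˣ, clp p a = c ∧ OmType p K ε (a : K₁) ∧ NiceU p a}

/-- The valuation of the class `c` at some prime of `K₁` above `v` is not a multiple of `p`. -/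
def ValC {p : ℕ} {K K₁ : Type} [Field K] [NumberField K] [Field K₁] [NumberField K₁]
    [Algebra K K₁] (c : ClP p K₁) (v : HeightOneSpectrum (𝓞 K)) : Prop :=
  ∃ a : K₁ˣ, clp p a = c ∧ ∃ W : HeightOneSpectrum (𝓞 K₁), Above W v ∧ ¬ (p : ℤ) ∣ ordv W (a : K₁)

/-- The product of the norms of the primes of `K` above which the valuation of the class `c` is not a
multiple of `p`. -/
noncomputable def condC {p : ℕ} (K : Type) {K₁ : Type} [Field K] [NumberField K] [Field K₁]
    [NumberField K₁] [Algebra K K₁] (c : ClP p K₁) : ℕ :=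
  ∏ᶠ (v : HeightOneSpectrum (𝓞 K)) (_ : ValC c v), Ideal.absNorm v.asIdeal

/-- The elements of `Mˣ` modulo `p`-th powers which satisfy the conditions of the twisted Selmer group
of the class `c` of `K₁` (`M₁ ⊇ M, K₁`). -/
def SelC {p : ℕ} {k : Type} [NormedField k] {K M K₁ M₁ : Type} [Field K] [Field M] [Field K₁]
    [Field M₁] [NumberField M₁] [Algebra K M] [Algebra M M₁] [Algebra K₁ M₁] (L : IwasawaLog p k)
    (T : Set (M →+* k)) (P : (ZMod p)[X]) (δ : M ≃ₐ[K] M) (c : ClP p K₁) : Set (ClP p M) :=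
  {x | ∃ (y : Mˣ) (a : K₁ˣ), clp p y = x ∧ clp p a = c ∧
    Sel L T P δ (algebraMap K₁ M₁ (a : K₁)) y}

end Pool.Agent.Helper11.PP
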