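import Pool.Agent.Helper11.PP.DefsD

/-!
# Project PP (MP_fc6b1e_nt, density theorem), part D: the fields `N` and the final statements

Every statement is a `def ... : Prop` with its complete proof in the docstring. Throughout `Ω` is the
algebraic closure of `K`, `K₁' = j(K₁)`, `g₀ = [K₁ : K]`, a divisor of `p - 1` (`LE.L_CYC`), so prime to `p`.
-/

namespace Pool.Agent.Helper11.PP

open NumberField Polynomial Module IsDedekindDomain TensorProduct Pool.Agent.Helper51.SigLeo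
open Pool.Agent.Helper51.RP Pool.Agent.Helper42.RD Pool.Agent.Helper11.LE

/-- **D_EXI** (Kummer descent, for an abstract field `K₁`). If `a` is of type `ω` and not a `p`-th power
there is a cyclic extension `N/K` of degree `p` such that the `p`-th roots of `a` are in `N K₁'`.

PROOF (from `RD.E_KUM`). `j ε` is a primitive `p`-th root of unity of `Ω` and `K₁' = K(j ε)` (by `Cyc.gen`
the Galois group of `K₁/K(ε)` is trivial). Transport `ε`, `a` to `K(j ε)` by `j` and apply `E_KUM`; an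
automorphism of `Ω` which fixes `N` and `K₁'` fixes `N ⊔ K(j ε) ∋ s`. This is also a part of the proof of
`LE.F_CNT`, see `Pool/Agent/Helper86/LE/FCNT.lean`. -/
def D_EXI : Prop :=
  ∀ (p : ℕ) [Fact p.Prime] (K K₁ : Type) [Field K] [NumberField K] [Field K₁] [NumberField K₁]
    [Algebra K K₁] (ε : K₁), Cyc p K K₁ ε → ∀ (j : K₁ →+* AlgebraicClosure K),
    (∀ x : K, j (algebraMap K K₁ x) = algebraMap K (AlgebraicClosure K) x) →
  ∀ a : K₁ˣ, OmType p K ε (a : K₁) → ¬ Pw p a → ∃ N ∈ CycN p K, Gen p j a N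

/-- **D_UNQ** (uniqueness of `N`).

PROOF. Let `s ∈ Ω`, `s^p = j(a)`; `s ∉ K₁'` since `a` is not a `p`-th power. `[N' K₁' : K₁'] = p` (coprime
degrees, `[N' : K] = p`, `[K₁' : K] = g₀`); `s ∈ N' K₁'` by `Gen a N'` (`Ω` is Galois over `N' K₁'`), so
`N' K₁' = K₁'(s)`. Let `g ∈ Gal(Ω/K)` fix `N`; claim: `g` fixes `N'`. `g^(g₀)` fixes `N` and `K₁'`
(`Gal(K₁'/K)` has order `g₀`; `K₁'/K` is Galois), so it fixes `s` by `Gen a N`, hence `K₁'(s) ⊇ N'`. The
restriction of `g` to `N'` (Galois over `K`) has order dividing `p` and `g₀`, so it is trivial. By Galois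
theory `N' ⊆ N`, and the degrees are equal. -/
def D_UNQ : Prop :=
  ∀ (p : ℕ) [Fact p.Prime] (K K₁ : Type) [Field K] [NumberField K] [Field K₁] [NumberField K₁]
    [Algebra K K₁] (ε : K₁), Cyc p K K₁ ε → ∀ (j : K₁ →+* AlgebraicClosure K),
    (∀ x : K, j (algebraMap K K₁ x) = algebraMap K (AlgebraicClosure K) x) →
  ∀ a : K₁ˣ, ¬ Pw p a → ∀ N ∈ CycN p K, ∀ N' ∈ CycN p K, Gen p j a N → Gen p j a N' → N = N'

/-- **D_LIN.** Two elements which belong to the same `N` differ by an exponent and a `p`-th power.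

PROOF (see the end of the proof of `RD.E_RSP` and `LE.F_CNT`). Let `s^p = j(a)`, `s'^p = j(a')`; both are in
`N K₁'`, not in `K₁'`, and `[N K₁' : K₁'] = p`, Galois. Let `γ` be the generator of its group with
`γ s = j(ε) s`; `γ s' = j(ε)^i s'` with `p ∤ i`. `s' s^(-i)` is fixed by `γ`, so it is `j(c)`, and
`a' = a^i c^p`. -/
def D_LIN : Prop :=
  ∀ (p : ℕ) [Fact p.Prime] (K K₁ : Type) [Field K] [NumberField K] [Field K₁] [NumberField K₁]
    [Algebra K K₁] (ε : K₁), Cyc p K K₁ ε → ∀ (j : K₁ →+* AlgebraicClosure K),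
    (∀ x : K, j (algebraMap K K₁ x) = algebraMap K (AlgebraicClosure K) x) →
  ∀ N ∈ CycN p K, ∀ a a' : K₁ˣ, ¬ Pw p a → ¬ Pw p a' → Gen p j a N → Gen p j a' N →
    ∃ (i : ℕ) (c : K₁ˣ), ¬ p ∣ i ∧ a' = a ^ i * c ^ p

/-- **D_CNV** (every `N` comes from an `a`).

PROOF. `[N K₁' : K₁'] = p` (coprime degrees) and `N K₁'/K₁'` is Galois, so cyclic; `K₁'` contains `j(ε)`.
By Kummer theory (`exists_root_adjoin_eq_top_of_isCyclic`) there is `s ∈ N K₁'`, `s ∉ K₁'`, with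
`s^p ∈ K₁'`, `s^p = j(a)`; the other `p`-th roots of `j(a)` are `j(ε)^i s`: `Gen a N`, and `a` is not a
`p`-th power. *Type `ω`.* `Gal(N K₁'/K)` embeds in `Gal(N/K) × Gal(K₁'/K)`, an abelian group. Let `γ` be
the element which is trivial on `K₁'` with `γ s = j(ε) s`. Let `τ ∈ Gal(K₁/K)`, `τ ε = ε^n`, and let `τ'` be
an extension of `j τ j⁻¹` to `N K₁'`. `γ(τ' s) = τ'(γ s) = τ'(j(ε) s) = j(ε)^n τ'(s)`, so `τ'(s) s^(-n)` is
fixed by `γ`, it is `j(c)`, and `τ a = a^n c^p`. -/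
def D_CNV : Prop :=
  ∀ (p : ℕ) [Fact p.Prime] (K K₁ : Type) [Field K] [NumberField K] [Field K₁] [NumberField K₁]
    [Algebra K K₁] (ε : K₁), Cyc p K K₁ ε → ∀ (j : K₁ →+* AlgebraicClosure K),
    (∀ x : K, j (algebraMap K K₁ x) = algebraMap K (AlgebraicClosure K) x) →
  ∀ N ∈ CycN p K, ∃ a : K₁ˣ, OmType p K ε (a : K₁) ∧ ¬ Pw p a ∧ Gen p j a N

/-- **D_NIC** (split at `p` implies `a ≡ 1 mod p³`).

PROOF. Let `H = N K₁'` (a number field; identify `K₁` with `K₁'`), `s ∈ H`, `s^p = a`; `H/K₁` is Galois with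
group embedded in `Gal(N/K)`. Let `W` be a prime of `K₁` above `p`, `𝔓` a prime of `H` above `W`, `V`, `v` the
primes of `N`, `K` below `𝔓`. As there are `p = [N : K]` primes of `N` above `v`, the decomposition group of
`V` in `Gal(N/K)` is trivial (orbit counting). An element of `Gal(H/K₁)` which preserves `𝔓` preserves `V`,
so it is trivial on `N` and on `K₁`, hence trivial. So `e(𝔓/W) = f(𝔓/W) = 1` (see
`Pool/Agent/Helper2/RL/EF1.lean`: `ef_free`, `residue_surj`): `ord_𝔓 = ord_W` on `K₁`, and for every `y ∈ H`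
with `ord_𝔓(y) ≥ 0` and every `n` there is `c ∈ 𝓞_{K₁}` with `ord_𝔓(y - c) ≥ n` (induction on `n`, with a
uniformizer of `W` in `K₁`; multiply first by an element of `K₁` which is a unit at `𝔓` to make things
integral if necessary). Let `n` be large. There is `y_W ∈ K₁` with `ord_𝔓(s y_W - 1) ≥ n`: choose
`t ∈ K₁` with `ord_W(t) = ord_𝔓(s)`, `c ∈ K₁` with `ord_𝔓(t/s - c) ≥ n`, and `y_W = c/t`. So
`ord_W(a y_W^p - 1) ≥ n`. By weak approximation choose `y ∈ K₁ˣ` so close to `y_W` at all the `W` above `p`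
that `ord_W(a y^p - 1) ≥ ord_W(p³)`. Let `b₀ = a y^p`. Let `𝔡` be an ideal prime to `p` with
`𝔡 b₀ ⊆ 𝓞` locally at all primes not above `p`; choose `d ∈ 𝔡`, `d ≡ 1 mod p³` (`𝔡` and `p³` are coprime),
`d ≠ 0`. `b = b₀ d^p` is integral, `ord_W(b - 1) ≥ ord_W(p³)` for all `W` above `p`, so `p³ ∣ b - 1`. -/
def D_NIC : Prop :=
  ∀ (p : ℕ) [Fact p.Prime] (K K₁ : Type) [Field K] [NumberField K] [Field K₁] [NumberField K₁]
    [Algebra K K₁] (ε : K₁), Cyc p K K₁ ε → ∀ (j : K₁ →+* AlgebraicClosure K),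
    (∀ x : K, j (algebraMap K K₁ x) = algebraMap K (AlgebraicClosure K) x) →
  ∀ N ∈ CycF p K, ∀ a : K₁ˣ, ¬ Pw p a → Gen p j a N → NiceU p a

/-- **D_SPL** (`a ≡ 1 mod p³` implies split at `p`).

PROOF (from `RP.S_ROO`, `L_CYC`). We may replace `a` by `b = a y^p ∈ 𝓞_{K₁}`, `b ≡ 1 mod p³` (`Gen b N` follows
from `Gen a N`). Let `H = N K₁'` (identify `K₁` with `K₁'`), `s ∈ H`, `s^p = b`, `γ` the generator of
`Gal(H/K₁)` with `γ s = ε s`. Let `v ∣ p`, `V` a prime of `N` above `v`; suppose that the decomposition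
group of `V` in `Gal(N/K)` contains `g ≠ 1`. Let `𝔓` be a prime of `H` above `V`. (1) The decomposition
group of `𝔓` in `Gal(H/K₁)` is trivial: otherwise it contains `γ`. `RP.S_ROO` gives `c ∈ 𝓞_{K₁}` such that
`b - c^p = ∏_i (s - ε^i c)` is as small as we like at all primes above `p`; so some `|s - ε^i c|_𝔓` is
`< |ε - 1|_𝔓`. Apply `γ`: `|ε s - ε^i c|_𝔓 < |ε - 1|_𝔓`, so `|ε - 1|_𝔓 |s|_𝔓 = |ε s - s|_𝔓 < |ε - 1|_𝔓`,
a contradiction as `|s|_𝔓 = 1`. (2) Extend `g` to `g₁ ∈ Gal(H/K)`; `g₁ 𝔓` is above `g V = V`, so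
`g₁ 𝔓 = h 𝔓` with `h ∈ Gal(H/N)`; `g₂ = h⁻¹ g₁` extends `g` and preserves `𝔓`. `g₂^(g₀)` is trivial on
`K₁` (`Gal(K₁/K)` has order `g₀`) and preserves `𝔓`, so it is trivial by (1); so `g^(g₀) = 1`, and
`g^p = 1`, `g = 1`, a contradiction. So the decomposition group of `V` is trivial and there are `p` primes
above `v`. -/
def D_SPL : Prop :=
  ∀ (p : ℕ) [Fact p.Prime] (K K₁ : Type) [Field K] [NumberField K] [Field K₁] [NumberField K₁]
    [Algebra K K₁] (ε : K₁), Cyc p K K₁ ε → ∀ (j : K₁ →+* AlgebraicClosure K),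
    (∀ x : K, j (algebraMap K K₁ x) = algebraMap K (AlgebraicClosure K) x) →
  ∀ N ∈ CycN p K, ∀ a : K₁ˣ, ¬ Pw p a → Gen p j a N → NiceU p a → N ∈ CycF p K

/-- **D_UNR.** If there are `p` primes of `N` above `v`, then `v` is not ramified in `N`.

PROOF. `∑ e f = [N : K] = p` over the `p` primes above `v`, so `e = 1` for all of them, and
`v 𝓞_N ⊄ V²`. -/
def D_UNR : Prop :=
  ∀ (p : ℕ) [Fact p.Prime] (K : Type) [Field K] [NumberField K],
  ∀ N ∈ CycN p K, ∀ v : HeightOneSpectrum (𝓞 K), SplitsIn p N v → ¬ RamIn N v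

/-- **D_TAM** (ramification outside `p`).

PROOF (from `L_CYC`, `RL.X_INE`). Let `H = N K₁'` (identify `K₁` with `K₁'`), `s ∈ H`, `s^p = a`, `γ` the generator
of `Gal(H/K₁)` with `γ s = ε s`; `[H : N] = g₀`, `[H : K₁] = p`; `H/K`, `H/N`, `H/K₁`, `N/K`, `K₁/K` are
Galois, so the ramification indices divide the degrees. Let `𝔓` be a prime of `H`, `V`, `W`, `v` the primes
of `N`, `K₁`, `K` below. `e(𝔓/V) e(V/v) = e(𝔓/W) e(W/v)`, `e(𝔓/V)` and `e(W/v)` are prime to `p`,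
`e(V/v)` and `e(𝔓/W)` are `1` or `p`; so `e(V/v) = e(𝔓/W)`. (If) Let `W` be above `v` with
`p ∤ ord_W(a)`, `𝔓` above `W`: `p ord_𝔓(s) = ord_𝔓(a) = e(𝔓/W) ord_W(a)`, so `e(𝔓/W) = p = e(V/v) ≥ 2`
and `v 𝓞_N ⊆ V²`. (Only if) Let `V` be above `v`, `v 𝓞_N ⊆ V²`, `𝔓` above `V`, `W` below: `e(V/v) ≥ 2`, so
`e(𝔓/W) = p`. Suppose `p ∣ ord_W(a)`: let `c ∈ K₁ˣ` with `ord_W(a) = p ord_W(c)`, `s' = s/c`,
`|s'|_𝔓 = 1`, `γ s' = ε s'`. By `X_INE` there is `g ≠ 1` in `Gal(H/K₁)` with `|g x - x|_𝔓 < 1` for all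
`x ∈ 𝓞_H`; then `g` preserves `𝔓` (so this holds for all `x` with `|x|_𝔓 ≤ 1`), `g = γ^i`, `p ∤ i`, and
`|ε^i - 1|_𝔓 = |g s' - s'|_𝔓 < 1`, so `p ∈ 𝔓` (`∏_{0<l<p} (1 - ε^l) = p`), contrary to `v ∤ p`. -/
def D_TAM : Prop :=
  ∀ (p : ℕ) [Fact p.Prime] (K K₁ : Type) [Field K] [NumberField K] [Field K₁] [NumberField K₁]
    [Algebra K K₁] (ε : K₁), Cyc p K K₁ ε → ∀ (j : K₁ →+* AlgebraicClosure K),
    (∀ x : K, j (algebraMap K K₁ x) = algebraMap K (AlgebraicClosure K) x) →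
  ∀ N ∈ CycN p K, ∀ a : K₁ˣ, ¬ Pw p a → Gen p j a N →
  ∀ v : HeightOneSpectrum (𝓞 K), (p : 𝓞 K) ∉ v.asIdeal →
    (RamIn N v ↔ ∃ W : HeightOneSpectrum (𝓞 K₁), Above W v ∧ ¬ (p : ℤ) ∣ ordv W (a : K₁))

/-- **D_MAP** (the map from the classes to the fields). There is a map `nf` from the classes to the
fields such that the classes `c` of type `ω`, `c ≠ 1`, are mapped to cyclic extensions of degree `p`, each of
which has exactly `p - 1` preimages; those `≡ 1 mod p³` correspond to `CycF`, with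
`cond (nf c) = condC c`.

PROOF (from `D_EXI`, `D_UNQ`, `D_LIN`, `D_CNV`, `D_NIC`, `D_SPL`, `D_UNR`, `D_TAM`, `L_CYC`). For `c ∈ BSet` choose `a`
of type `ω` in `c`, not a `p`-th power as `c ≠ 1`, and `nf c = N` given by `D_EXI`. If `clp a' = c` then
`a' = a y^p` and `Gen a' N` (the `p`-th roots of `j(a')` are `j(y)` times those of `j(a)`; all
automorphisms which fix `K₁'` fix `j(y)`). *Preimages of `N ∈ CycN`*: let `a₀` be given by `D_CNV`,
`c₀ = clp a₀`. The preimages are the `c₀^i`, `p ∤ i`: if `nf c = N`, `c = clp a`, then `a = a₀^i y^p`,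
`p ∤ i`, by `D_LIN`; conversely `c = c₀^i` is of type `ω` (`τ(a₀^i) = (a₀^i)^n (c^i)^p`), not `1` if `p ∤ i`
(`c₀` has order `p`), `Gen (a₀^i) N` (the `p`-th roots of `j(a₀^i)` are `ζ s₀^i`, `ζ^p = 1`, `ζ ∈ K₁'`),
so `nf c = N` by `D_UNQ`. There are `p - 1` of them. *ASet*: if `c ∈ ASet` then `nf c ∈ CycF` by `D_SPL`;
if `c ∈ BSet` and `nf c ∈ CycF` then `NiceU a` by `D_NIC`. *cond*: let `c ∈ ASet`, `N = nf c`. For `v ∤ p`
`RamIn N v ↔ ValC c v` by `D_TAM` (the valuations of `a` and `a y^p` are congruent modulo `p`). For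
`v ∣ p` both are false: `D_UNR`, and `b = a y^p ≡ 1 mod p³` has valuation `0` at `W ∣ p`. -/
def D_MAP : Prop :=
  ∀ (p : ℕ) [Fact p.Prime] (K K₁ : Type) [Field K] [NumberField K] [Field K₁] [NumberField K₁]
    [Algebra K K₁] (ε : K₁), Cyc p K K₁ ε → ∀ (j : K₁ →+* AlgebraicClosure K),
    (∀ x : K, j (algebraMap K K₁ x) = algebraMap K (AlgebraicClosure K) x) →
  ∃ nf : ClP p K₁ → IntermediateField K (AlgebraicClosure K),
    (∀ c ∈ BSet p K ε, nf c ∈ CycN p K ∧ ∀ a : K₁ˣ, clp p a = c → Gen p j a (nf c)) ∧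
    (∀ N ∈ CycN p K, {c | c ∈ BSet p K ε ∧ nf c = N}.ncard = p - 1) ∧
    (∀ c ∈ BSet p K ε, (c ∈ ASet p K ε ↔ nf c ∈ CycF p K)) ∧
    ∀ c ∈ ASet p K ε, cond K (nf c) = condC K c

/-- **D_PRD** (products). If `a, a', a a'` belong to `N, N', N''` then `N'' ⊆ N N'`, so a prime of `K`
ramified in `N''` is ramified in `N` or in `N'`.

PROOF. Let `g ∈ Gal(Ω/K)` fix `N` and `N'`. `g^(g₀)` fixes also `K₁'`, so it fixes the `p`-th roots `s, s'` of
`j(a)`, `j(a')` and `s s'`, a `p`-th root of `j(a a')`, which generates `N'' K₁'` over `K₁'` (see `D_UNQ`);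
so `g^(g₀)` fixes `N''`, and the restriction of `g` to `N''` has order dividing `g₀` and `p`: it is
trivial. So `N'' ⊆ N N'`. Let `v` be not ramified in `N` and `N'`: all the `e(V/v)` are `1` (they are
equal for the different `V`, since `N/K` is Galois). Let `𝔓` be a prime of `N N'` above `v` and `I` its
inertia group in `Gal(N N'/K)`; its image in `Gal(N/K)` is in the inertia group of `𝔓 ∩ N`, which is
trivial (`Ideal.card_inertia_eq_ramificationIdxIn`), and the same for `N'`; so `I = 1`, `e(𝔓/v) = 1`, and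
`e(V''/v) = 1` for `V'' = 𝔓 ∩ N''`. -/
def D_PRD : Prop :=
  ∀ (p : ℕ) [Fact p.Prime] (K K₁ : Type) [Field K] [NumberField K] [Field K₁] [NumberField K₁]
    [Algebra K K₁] (ε : K₁), Cyc p K K₁ ε → ∀ (j : K₁ →+* AlgebraicClosure K),
    (∀ x : K, j (algebraMap K K₁ x) = algebraMap K (AlgebraicClosure K) x) →
  ∀ N ∈ CycN p K, ∀ N' ∈ CycN p K, ∀ N'' ∈ CycN p K, ∀ a a' : K₁ˣ, ¬ Pw p (a * a') →
    Gen p j a N → Gen p j a' N' → Gen p j (a * a') N'' →
  ∀ v : HeightOneSpectrum (𝓞 K), RamIn N'' v → RamIn N v ∨ RamIn N' v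

/-- **D_IDX** (finite index). There are finitely many elements `c` of type `ω` such that every `a` of type
`ω` is the product of one of them and of an element `≡ 1 mod p³` up to `p`-th powers.

PROOF (from `D_TAU`, `D_NLS` of `GoalsE.lean`). Apply `D_TAU` to `F = K₁`, `Z` the set of the primes above `p`
(finite, since `p ≠ 0`), `H` the set of the elements of type `ω`; `LocS p Z (a/c)` is `NiceU (a/c)` by
`D_NLS`. -/
def D_IDX : Prop :=
  ∀ (p : ℕ) [Fact p.Prime] (K K₁ : Type) [Field K] [NumberField K] [Field K₁] [NumberField K₁]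
    [Algebra K K₁] (ε : K₁), Cyc p K K₁ ε →
  ∃ F : Finset K₁ˣ, (∀ c ∈ F, OmType p K ε (c : K₁)) ∧
    ∀ a : K₁ˣ, OmType p K ε (a : K₁) → ∃ c ∈ F, NiceU p (a / c)

/-- **D_BFN** (finiteness). There are finitely many cyclic `N/K` of degree `p` with `cond K N ≤ X`.

PROOF (from `D_CNV`, `D_UNQ`, `D_TAM`, `D_PRD`, `RD.D_FIN` for `K₁`). `cond K N` is the product of the norms of the
finitely many primes ramified in `N` (finitely many: outside `p` they are below primes `W` with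
`ord_W(a) ≠ 0`, `D_TAM`), so all of them have norm `≤ X`; the primes of norm `≤ X` are finitely many. So
there is a finite set `Z` of primes of `K₁`, containing those above `p`, such that for all these `N` the
elements `a` of `D_CNV` have valuations divisible by `p` outside `Z`. The classes modulo `p`-th powers of
elements with given valuations modulo `p` at `Z` and valuations divisible by `p` outside are at most `n`
(`D_FIN`: divide by one of them). So there are finitely many classes, and `N` is determined by the class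
of `a` (`D_UNQ`). -/
def D_BFN : Prop :=
  ∀ (p : ℕ) [Fact p.Prime] (K : Type) [Field K] [NumberField K] (X : ℕ),
    {N | N ∈ CycN p K ∧ cond K N ≤ X}.Finite

/-- **D_CMP** (comparison of the two families). There is `C` such that for all `X` the number of all cyclic
`N/K` of degree `p` with `cond ≤ X` is at most `C` times (1 plus the number of those in `CycF` with
`cond ≤ C X`).

PROOF (from `D_MAP`, `D_PRD`, `D_IDX`, `D_BFN`). Take `K₁ = K(ε)` in `Ω`, `j` the inclusion. Let `F` be given by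
`D_IDX`; for `c ∈ F`, not a `p`-th power, let `N_c` be its field and `C_c = cond K N_c`; otherwise
`C_c = 1`. By `D_MAP` the number of the `N` is at most the number of the classes of the `a` (type `ω`, not
`p`-th powers) with `cond ≤ X`. For such `a` let `c ∈ F` with `NiceU (a/c)`. If `a/c` is not a `p`-th
power its field `N''` is in `CycF` (`D_MAP`), and the primes ramified in `N''` are ramified in `N_a` or
`N_c` (`D_PRD` for `a` and `c⁻¹`, which has the same field as `c`; if `c` is a `p`-th power `N'' = N_a`),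
so `cond K N'' ≤ cond K N_a · C_c ≤ X C_c` (product of norms over finite sets). For fixed `c` the map from
the classes of `a` to those of `a/c` is injective, and each `N''` comes from `p - 1` classes. So the
number is at most `∑_{c ∈ F} (1 + (p - 1) #{N'' ∈ CycF : cond ≤ X C_c})`. -/
def D_CMP : Prop :=
  ∀ (p : ℕ) [Fact p.Prime] (K : Type) [Field K] [NumberField K],
  ∃ C : ℕ, ∀ X : ℕ, {N | N ∈ CycN p K ∧ cond K N ≤ X}.ncard ≤
    C * ({N | N ∈ CycF p K ∧ cond K N ≤ C * X}.ncard + 1)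

/-- **D_NAT** (from Abel means to natural counting; abstract). Let `f : ι → ℕ` have finite sublevel sets,
`A(X) = #{f ≤ X}` satisfy `A(2 X) ≤ C A(X)` for `X ≥ X₀`, `0 < A(X₀)`, and let the subset `G` satisfy
`∑_{i ∉ G} e^(-f(i)/X) ≤ θ ∑_i e^(-f(i)/X)` for `X ≥ X₀`, `θ < 1`. Then `#{i ∈ G : f(i) ≤ X} ≥ c A(X)` for
some `c > 0` and all large `X`.

PROOF. Let `κ = log₂ C`, `C ≥ 1`. For `X ≥ X₀`, `n ≥ 0`: `A(2^n X) ≤ C^n A(X)`. Sums: `∑_i e^(-f(i)/Y)`
converges: it is at most `A(Y) + ∑_{n ≥ 0} A(2^(n+1) Y) e^(-2^n)` (split the `i` with `f(i) > Y` according to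
`2^n Y < f(i) ≤ 2^(n+1) Y`), `Y ≥ X₀`. Let `m ∈ ℕ`, `Y ≥ X₀` and `X = 2^m Y`. (a)
`∑_i e^(-f(i)/Y) ≥ e^(-1) A(Y)`. (b) the `i` with `f(i) > X`:
`∑_{f(i) > X} e^(-f(i)/Y) ≤ ∑_{n ≥ 0} A(2^(n+1) X) e^(-2^(n+m)) ≤ A(Y) ∑_{n ≥ 0} C^(n+1+m) e^(-2^(n+m))
= A(Y) ε_m`, and `ε_m → 0` for `m → ∞` (`ε_m ≤ ∑_{l ≥ m} C^(l+1) e^(-2^l)`, the tail of a convergent series).
Choose `m` with `ε_m ≤ (1 - θ)/(2 e)`. Then `(1 - θ) e^(-1) A(Y) ≤ (1 - θ) ∑_i e^(-f(i)/Y) ≤
∑_{i ∈ G} e^(-f(i)/Y) ≤ #{i ∈ G : f(i) ≤ X} + ε_m A(Y)`, so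
`#{i ∈ G : f(i) ≤ X} ≥ (1 - θ)/(2 e) A(Y)`, and `A(X) = A(2^m Y) ≤ C^m A(Y)`. For a real or natural number
`X ≥ 2^m X₀` take `Y = X/2^m` (use real `X, Y`). -/
def D_NAT : Prop :=
  ∀ (ι : Type) (f : ι → ℕ), (∀ X : ℝ, {i | (f i : ℝ) ≤ X}.Finite) →
  ∀ (G : Set ι) (C X₀ θ : ℝ), 0 < X₀ → θ < 1 →
    (∀ X : ℝ, X₀ ≤ X → ({i | (f i : ℝ) ≤ 2 * X}.ncard : ℝ) ≤ C * {i | (f i : ℝ) ≤ X}.ncard) →
    (∀ X : ℝ, X₀ ≤ X → ∑' i : {i | i ∉ G}, Real.exp (-(f i : ℝ) / X) ≤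
      θ * ∑' i, Real.exp (-(f i : ℝ) / X)) →
  ∃ c X₁ : ℝ, 0 < c ∧ ∀ X : ℝ, X₁ ≤ X →
    c * {i | (f i : ℝ) ≤ X}.ncard ≤ {i | i ∈ G ∧ (f i : ℝ) ≤ X}.ncard

/-- **D_GOO** (trivial Selmer group implies good). As `RD.E_GOO`, with the twisted Selmer group of `a`
instead of a datum.

PROOF (from `RP.S_P1`, `RP.S_NSP`, `RD.E_TOR`). The proof of `RD.E_GOO` (`Pool/Agent/Helper79/RD/GOO.lean`) uses the
datum only to show with `E_MAT` that `Sel(a)` consists of `p`-th powers. -/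
def D_GOO : Prop :=
  ∀ (p : ℕ) [Fact p.Prime] (K : Type) [Field K] [NumberField K]
    (ιinf : AlgebraicClosure K →+* ℂ) (ιp : AlgebraicClosure K →+* ℂ_[p]) (L : IwasawaLog p ℂ_[p])
    (S : Set (K →+* ℂ)), PlaceClosed (TSet ιinf ιp S) →
  ∀ (M : IntermediateField K (AlgebraicClosure K)) [NumberField M] [IsGalois K M]
    (χ₀ : (M ≃ₐ[K] M) →* ℂ_[p]ˣ), Function.Injective χ₀ → (finrank K M).Coprime p →
    (∀ ξ : AlgebraicClosure K, IsPrimitiveRoot ξ p → ¬ M ≤ IntermediateField.adjoin K {ξ}) →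
  ∀ (δ : M ≃ₐ[K] M) (Φ : ℤ_[p][X]) (P : (ZMod p)[X]), orderOf δ = finrank K M →
    PhiData p (finrank K M) ((χ₀ δ : ℂ_[p]ˣ) : ℂ_[p]) Φ P →
  ∀ (M₁ : Type) [Field M₁] [NumberField M₁] [Algebra M M₁] [IsGalois M M₁],
    (finrank M M₁).Coprime p → ∀ (ε : M₁) (a : 𝓞 M₁), IsPrimitiveRoot ε p → a ≠ 0 →
    (p : 𝓞 M₁) ^ 3 ∣ a - 1 →
    (∀ x : (M)ˣ, Sel L (above (TSet ιinf ιp S)) P δ (a : M₁) x → Pw p x) →
  ∀ (j : M₁ →+* AlgebraicClosure K), (∀ x : M, j (algebraMap M M₁ x) = x) →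
  ∀ s : AlgebraicClosure K, s ^ p = j a → (¬ ∃ y : M₁, j y = s) →
  ∀ N : IntermediateField K (AlgebraicClosure K), finrank K N = p → IsGalois K N →
    (∀ g : AlgebraicClosure K ≃ₐ[K] AlgebraicClosure K, (∀ y ∈ N, g y = y) →
      (∀ x : M₁, g (j x) = j x) → g s = s) →
  TwistGood p ιinf ιp L S M χ₀ N

/-- **MOM** (the moment theorem, class form; proved in parts A-C). In the situation of `RD.D_COR` with the
tower `K ⊆ M, K₁ ⊆ M₁`: the Abel means of the classes `c` (type `ω`, `≡ 1 mod p³`, `≠ 1`) whose twisted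
Selmer group is not trivial are, up to `o(1)`, at most `Q/(p (Q - 1))` times the Abel means of all
these classes; `Q = p^f`, `f = deg P`. The number of the classes grows at most by a constant factor if
`X` is replaced by `2 X`. -/
def MOM : Prop :=
  ∀ (p : ℕ) [Fact p.Prime] (L : IwasawaLog p ℂ_[p]) (K M K₁ M₁ : Type) [Field K] [NumberField K]
    [IsTotallyComplex K] [Field M] [NumberField M] [Field K₁] [NumberField K₁] [Field M₁]
    [NumberField M₁] [Algebra K M] [Algebra K K₁] [Algebra K M₁] [Algebra M M₁] [Algebra K₁ M₁]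
    [IsScalarTower K M M₁] [IsScalarTower K K₁ M₁] [IsGalois K M] [IsGalois K K₁] [IsGalois K M₁]
    (ε : K₁), Tower p K M K₁ M₁ ε →
  ∀ (m : ℕ) (δ : M ≃ₐ[K] M) (ζ : ℂ_[p]) (Φ : ℤ_[p][X]) (P : (ZMod p)[X]), PhiData p m ζ Φ P →
    orderOf δ = m → finrank K M = m → TorOK P δ →
  ∀ T : Set (K →+* ℂ_[p]), PlaceClosed T → finrank ℚ K = 2 * T.ncard →
  (∀ X : ℝ, 0 < X → Summable fun c : ASet p K ε ↦ Real.exp (-(condC K c.1 : ℝ) / X)) ∧
  (∀ X : ℝ, {c | c ∈ ASet p K ε ∧ (condC K c : ℝ) ≤ X}.Finite) ∧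
  (∃ C X₀ : ℝ, 0 < X₀ ∧ ∀ X : ℝ, X₀ ≤ X →
    ({c | c ∈ ASet p K ε ∧ (condC K c : ℝ) ≤ 2 * X}.ncard : ℝ) ≤
      C * {c | c ∈ ASet p K ε ∧ (condC K c : ℝ) ≤ X}.ncard) ∧
  (ASet p K ε).Infinite ∧
  ∀ η : ℝ, 0 < η → ∀ᶠ X : ℝ in Filter.atTop,
    ∑' c : {c | c ∈ ASet p K ε ∧
        ∃ x ∈ SelC (M₁ := M₁) L (above T : Set (M →+* ℂ_[p])) P δ c, x ≠ 1},
      Real.exp (-(condC K c.1 : ℝ) / X) ≤
    ((p : ℝ) ^ P.natDegree / (p * ((p : ℝ) ^ P.natDegree - 1)) + η) *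
      ∑' c : ASet p K ε, Real.exp (-(condC K c.1 : ℝ) / X)

/-- **D_DEN** (the density theorem). Let `p` be a prime, `K` a number field, `S` a CM type of `K` which is
`p`-ordinary for `ι_∞`, `ι_p`, `χ₀` a character of order `m` prime to `p` of `Gal(K^ab/K)`, cutting out
`M`, `M` not contained in `K(μ_p)`, and `Q = p^f`, `f` the order of `p` modulo `m`. (1) Among the cyclic
extensions `N/K` of degree `p` in which the primes above `p` split, the Abel means (with respect to the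
product of the norms of the ramified primes) of those for which the `Σ`-Leopoldt statement fails for some
`χ₀ φ`, `φ` a character of order `p` of `Gal(N/K)`, are asymptotically at most `Q/(p (Q - 1))` times
those of all. (2) A positive proportion of ALL cyclic extensions `N/K` of degree `p`, ordered by the
product of the norms of the ramified primes, is in this family and satisfies the `Σ`-Leopoldt
statement for all these characters.

PROOF (from `MOM`, `D_MAP`, `D_GOO`, `D_CMP`, `D_NAT`, `D_BFN`, `RP.S_PHI`, `RD.E_TOW`, `RD.E_TOR`). As in the proof of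
`RD.E_RSP` (`Pool/Agent/Helper35/RD/RSP.lean`): `K` is totally complex, `T = TSet ιinf ιp S`, `δ`, `ζ = χ₀(δ)`,
`Φ`, `P`, `TorOK`, the tower `K₁ = K(ε)`, `M₁ = M K₁` in `Ω`; `deg P = f` (`P` is an irreducible factor of
the `m`-th cyclotomic polynomial modulo `p`: `PhiData`: `P` is irreducible, divides `X^m - 1` and is prime
to `X^e - 1` for `e ∣ m`, `e < m`; so its roots are the elements of order `m`, which generate `F_{p^f}`).
Let `nf` be given by `D_MAP`. CLAIM: if `c ∈ ASet` and `SelC c` is trivial then `N = nf c` is good. Let `a₀` of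
type `ω` with `clp a₀ = c`, `b = a₀ y^p ∈ 𝓞_{K₁}`, `b ≡ 1 mod p³` (`NiceU`; `b ≠ 0`), `a` the image of `b` in `M₁`,
`s^p = j(a)`. `s ∉ M₁`: otherwise `b` is a `p`-th power in `M₁`, and in `K₁` (`[M₁ : K₁]` is prime to `p`,
`E_TOW`: take the norm), contrary to `c ≠ 1`. If `x ∈ Sel(a)` then `clp x ∈ SelC c` (`clp b = c`), so
`clp x = 1` and `Pw p x`. `Gen b N` gives the condition on the automorphisms (`g` fixes `M₁ ⊇ K₁`).
`D_GOO` applies.
(1) Every `N ∈ CycF` has exactly `p - 1` preimages under `nf`, all in `ASet`, with `condC = cond K N`. So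
`(p - 1) ∑_{N ∈ CycF} e^(-cond/X) = ∑_{c ∈ ASet} e^(-condC/X)` and
`(p - 1) ∑_{N ∈ CycF, bad} e^(-cond/X) ≤ ∑_{c ∈ ASet, SelC c ≠ 1} e^(-condC/X)` (all the preimages of a bad
`N` have `SelC c ≠ 1`); apply `MOM`. (2) `θ = Q/(p (Q - 1)) + η < 1` for a small `η > 0`: `Q ≥ p`, so
`Q/(p (Q - 1)) ≤ 1/(p - 1) ≤ 1/2` if `p ≥ 3`; if `p = 2` then `m` is odd and `> 1`, so `Q ≥ 4` and
`Q/(p (Q - 1)) ≤ 2/3`. Apply `D_NAT` to `ι = CycF`,
`f = cond`, `G` the good ones: `#{N ∈ CycF good, cond ≤ X} ≥ c A(X)`, `A(X) = #{N ∈ CycF : cond ≤ X}` for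
large `X`; by `D_CMP` and the doubling property (iterated) `#{N ∈ CycN : cond ≤ X} ≤ C (A(C X) + 1) ≤
C' A(X)` for large `X` (`A(X) ≥ 1`, `CycF` is not empty). -/
def D_DEN : Prop :=
  ∀ (p : ℕ) [Fact p.Prime] (K : Type) [Field K] [NumberField K] (ιinf : AlgebraicClosure K →+* ℂ)
    (ιp : AlgebraicClosure K →+* ℂ_[p]) (L : IwasawaLog p ℂ_[p]) (S : Set (K →+* ℂ)), IsCMType S →
    (∀ σ τ : K →+* AlgebraicClosure K, (∀ x, ‖ιp (σ x)‖ = ‖ιp (τ x)‖) →
      (ιinf.comp σ ∈ S ↔ ιinf.comp τ ∈ S)) →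
  ∀ (M : IntermediateField K (AlgebraicClosure K)) [FiniteDimensional K M] [IsGalois K M]
    (χ₀ : (M ≃ₐ[K] M) →* ℂ_[p]ˣ), Function.Injective χ₀ → (finrank K M).Coprime p →
    (∀ ξ : AlgebraicClosure K, IsPrimitiveRoot ξ p → ¬ M ≤ IntermediateField.adjoin K {ξ}) →
  ∀ (Q : ℕ), Q = p ^ orderOf (p : ZMod (finrank K M)) →
  (∀ X : ℝ, 0 < X → Summable fun N : CycF p K ↦ Real.exp (-(cond K N.1 : ℝ) / X)) ∧
  (∀ η : ℝ, 0 < η → ∀ᶠ X : ℝ in Filter.atTop,
    ∑' N : {N | N ∈ CycF p K ∧ ¬ TwistGood p ιinf ιp L S M χ₀ N},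
      Real.exp (-(cond K N.1 : ℝ) / X) ≤
    ((Q : ℝ) / (p * (Q - 1)) + η) * ∑' N : CycF p K, Real.exp (-(cond K N.1 : ℝ) / X)) ∧
  (∀ X : ℕ, {N | N ∈ CycN p K ∧ cond K N ≤ X}.Finite) ∧
  ∃ c : ℝ, 0 < c ∧ ∀ᶠ X : ℕ in Filter.atTop,
    0 < {N | N ∈ CycN p K ∧ cond K N ≤ X}.ncard ∧
    c * {N | N ∈ CycN p K ∧ cond K N ≤ X}.ncard ≤
      {N | N ∈ CycF p K ∧ cond K N ≤ X ∧ TwistGood p ιinf ιp L S M χ₀ N}.ncard

end Pool.Agent.Helper11.PP
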