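import Pool.Agent.Helper88.PP.Goals

/-! At a prime the weight is `GG`. -/

set_option autoImplicit false

open Finset

open scoped Classical

namespace Pool.Agent.Helper11.PP

open Pool.Agent.Helper88.PP

theorem vv_one {E z y : ℕ} {p0 n : ℕ} (hM : 2 ≤ MM E) (hz : 2 ≤ z) (hp : p0.Prime)
    (hn : z ^ MM E ≤ n) (hnp : n ≤ p0) {s : ℕ} (hs : s ∈ SS z (z ^ MM E)) :
    vv y z s p0 = 1 := by
  unfold SS at hs
  rw [mem_filter, mem_Ico] at hs
  obtain ⟨⟨hs1, hs2⟩, _⟩ := hs
  have hzM : z < z ^ MM E := by
    calc z = z ^ 1 := (pow_one z).symm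
      _ < z ^ MM E := Nat.pow_lt_pow_right (by omega) (by omega)
  have hlt : ∀ p : ℕ, p.Prime → p < z ^ MM E → ¬ p ∣ p0 := by
    intro p hpp hpl hd
    have := (Nat.prime_dvd_prime_iff_eq hpp hp).1 hd
    omega
  have hRg : Rg y z p0 := by
    intro p hpr
    unfold pr at hpr
    rw [mem_filter, mem_Ioc] at hpr
    exact hlt p hpr.2 (lt_of_le_of_lt hpr.1.2 hzM)
  unfold vv
  rw [if_neg (by omega), if_pos hRg]
  unfold uu
  apply Finset.prod_eq_one
  intro p hpm
  have hpp := Nat.prime_of_mem_primeFactors hpm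
  have hpd := Nat.dvd_of_mem_primeFactors hpm
  have hps : p ≤ s := Nat.le_of_dvd (by omega) hpd
  rw [if_neg (hlt p hpp (by omega))]
  simp

theorem LA_sub {z m m' M : ℕ} (hz : 2 ≤ z) (h : m' ≤ M) : LA z m m' ⊆ SS z (z ^ M) := by
  intro r hr
  unfold LA at hr
  rw [mem_filter] at hr
  have h1 := hr.1
  unfold SS at h1 ⊢
  rw [mem_filter, mem_Ico] at h1 ⊢
  exact ⟨⟨h1.1.1, lt_of_lt_of_le h1.1.2 (Nat.pow_le_pow_right (by omega) h)⟩, h1.2⟩

theorem zero_notMem_SS {z X : ℕ} : 0 ∉ SS z X := by
  unfold SS
  rw [mem_filter, mem_Ico]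
  rintro ⟨⟨h, _⟩, _⟩
  omega

theorem sum_split {P : Finset ℕ} (h : P) (g : P → ℕ → ℕ) (r : P → ℕ) (s : ℕ) :
    ∑ i, g i (Function.update r h s i) = g h s + ∑ i ∈ univ.erase h, g i (r i) := by
  rw [← Finset.add_sum_erase univ _ (mem_univ h)]
  congr 1
  · rw [Function.update_self]
  · apply Finset.sum_congr rfl
    intro i hi
    rw [Function.update_of_ne (ne_of_mem_erase hi)]

theorem prod_split {P : Finset ℕ} (h : P) (g : P → ℕ → ℝ) (r : P → ℕ) (s : ℕ) :
    ∏ i, g i (Function.update r h s i) = g h s * ∏ i ∈ univ.erase h, g i (r i) := by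
  rw [← Finset.mul_prod_erase univ _ (mem_univ h)]
  congr 1
  · rw [Function.update_self]
  · apply Finset.prod_congr rfl
    intro i hi
    rw [Function.update_of_ne (ne_of_mem_erase hi)]

theorem pw : StmtPW := by
  intro q E z y P h n hM hm1 hz hVV hm2 hp hn
  set A := LA z (m1 q E) (m2 q E) with hA
  have hAsub : A ⊆ SS z (z ^ MM E) := LA_sub hz hm2
  have h0A : 0 ∉ A := fun h => zero_notMem_SS (hAsub h)
  have hvv : ∀ s ∈ SS z (z ^ MM E), vv y z s (n + (h : ℕ)) = 1 := fun s hs =>
    vv_one hM hz hp hn (by omega) hs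
  set c : ℕ → ℕ := fun s => if s = 0 then 0 else ee z s with hc
  set f : P → ℕ → ℝ := fun i s => (if s = 0 then 1 else - aa q E z s) * vv y z s (n + (i : ℕ))
    with hf
  have hf0 : f h 0 = 1 := by simp [hf, vv]
  have hfA : ∀ s ∈ A, f h s = - aa q E z s := by
    intro s hs
    have hs0 : s ≠ 0 := fun h => h0A (h ▸ hs)
    simp only [hf, if_neg hs0, hvv s (hAsub hs), mul_one]
  have hcost : ∀ (r : P → ℕ) (s : ℕ), r h = 0 →
      cost z (Function.update r h s) = cost z r + c s := by
    intro r s hr
    have h1 : cost z (Function.update r h s) = c s + ∑ i ∈ univ.erase h, c (r i) := by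
      unfold cost
      exact sum_split h (fun _ t => c t) r s
    have h2 : cost z r = c (r h) + ∑ i ∈ univ.erase h, c (r i) := by
      unfold cost
      exact (Finset.add_sum_erase univ _ (mem_univ h)).symm
    rw [h1, h2, hr]
    simp only [hc, if_true]
    omega
  have hmemTT : ∀ r : P → ℕ, r ∈ TT q E z P ↔ (∀ i, r i ∈ insert 0 A) ∧ cost z r ≤ MM E := by
    intro r
    unfold TT
    rw [mem_filter, Fintype.mem_piFinset]
    exact Iff.rfl
  have hWW : WW q E z y P n = ∑ r ∈ TT q E z P, ∏ i, f i (r i) := rfl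
  -- the sum of the coefficients
  have hsumaa : ∑ s ∈ A, aa q E z s = 1 := by
    unfold aa
    have : ∀ s ∈ A, 1 / (VV z (m1 q E) (m2 q E) * (Nat.totient s : ℝ) * ee z s) =
        (1 / VV z (m1 q E) (m2 q E)) * (1 / ((Nat.totient s : ℝ) * ee z s)) := by
      intro s _
      rw [mul_assoc, one_div_mul_one_div]
    rw [Finset.sum_congr rfl this, ← Finset.mul_sum]
    have h2 : ∑ s ∈ A, 1 / ((Nat.totient s : ℝ) * ee z s) = VV z (m1 q E) (m2 q E) := rfl
    rw [h2]
    field_simp
  have hstep : ∀ r' ∈ (TT q E z P).filter (fun r => r h = 0),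
      ∑ r ∈ (TT q E z P).filter (fun r => Function.update r h 0 = r'), ∏ i, f i (r i) =
        De q E z (cost z r') * ∏ i, f i (r' i) := by
    intro r' hr'
    rw [mem_filter, hmemTT] at hr'
    obtain ⟨⟨hr1, hr2⟩, hr3⟩ := hr'
    have e1 : ∑ r ∈ (TT q E z P).filter (fun r => Function.update r h 0 = r'), ∏ i, f i (r i) =
        ∑ s ∈ (insert 0 A).filter (fun s => cost z r' + c s ≤ MM E),
          ∏ i, f i (Function.update r' h s i) := by
      refine Finset.sum_bij' (fun r _ => r h) (fun s _ => Function.update r' h s) ?_ ?_ ?_ ?_ ?_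
      · intro r hr
        rw [mem_filter, hmemTT] at hr
        obtain ⟨⟨ha, hb⟩, hd⟩ := hr
        rw [mem_filter]
        refine ⟨ha h, ?_⟩
        have : Function.update r' h (r h) = r := by
          rw [← hd]; simp
        rw [← hcost r' (r h) hr3, this]
        exact hb
      · intro s hs
        rw [mem_filter] at hs
        rw [mem_filter, hmemTT]
        refine ⟨⟨?_, ?_⟩, ?_⟩
        · intro i
          by_cases hi : i = h
          · subst hi; rw [Function.update_self]; exact hs.1
          · rw [Function.update_of_ne hi]; exact hr1 i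
        · rw [hcost r' s hr3]; exact hs.2
        · rw [Function.update_idem]
          conv_rhs => rw [← Function.update_eq_self h r', hr3]
      · intro r hr
        rw [mem_filter] at hr
        rw [← hr.2]; simp
      · intro s _
        simp
      · intro r hr
        rw [mem_filter] at hr
        have : Function.update r' h (r h) = r := by
          rw [← hr.2]; simp
        rw [this]
    have e2 : ∀ s, ∏ i, f i (Function.update r' h s i) =
        f h s * ∏ i ∈ univ.erase h, f i (r' i) := fun s => prod_split h f r' s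
    have e3 : ∏ i, f i (r' i) = ∏ i ∈ univ.erase h, f i (r' i) := by
      rw [← Finset.mul_prod_erase univ _ (mem_univ h), hr3, hf0, one_mul]
    rw [e1, Finset.sum_congr rfl (fun s _ => e2 s), ← Finset.sum_mul, e3]
    congr 1
    have e4 : (insert 0 A).filter (fun s => cost z r' + c s ≤ MM E) =
        insert 0 (A.filter (fun s => cost z r' + c s ≤ MM E)) := by
      rw [Finset.filter_insert, if_pos]
      simpa [hc] using hr2
    rw [e4, Finset.sum_insert (fun h => h0A (Finset.mem_filter.1 h).1), hf0]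
    have e5 : ∑ s ∈ A.filter (fun s => cost z r' + c s ≤ MM E), f h s =
        - ∑ s ∈ A.filter (fun s => cost z r' + ee z s ≤ MM E), aa q E z s := by
      rw [← Finset.sum_neg_distrib]
      apply Finset.sum_congr
      · apply Finset.filter_congr
        intro s hs
        have hs0 : s ≠ 0 := fun h => h0A (h ▸ hs)
        simp only [hc, if_neg hs0]
      · intro s hs
        exact hfA s (Finset.mem_filter.1 hs).1
    rw [e5]
    have e6 : De q E z (cost z r') =
        ∑ s ∈ A.filter (fun s => ¬ cost z r' + ee z s ≤ MM E), aa q E z s := by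
      unfold De
      apply Finset.sum_congr _ (fun _ _ => rfl)
      apply Finset.filter_congr
      intro s _
      omega
    rw [e6]
    have e7 := Finset.sum_filter_add_sum_filter_not A
      (fun s => cost z r' + ee z s ≤ MM E) (fun s => aa q E z s)
    rw [hsumaa] at e7
    linarith
  have hmaps : ∀ r ∈ TT q E z P, Function.update r h 0 ∈
      (TT q E z P).filter (fun r => r h = 0) := by
    intro r hr
    rw [hmemTT] at hr
    rw [mem_filter, hmemTT]
    refine ⟨⟨?_, ?_⟩, ?_⟩
    · intro i
      by_cases hi : i = h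
      · subst hi; rw [Function.update_self]; exact mem_insert_self 0 A
      · rw [Function.update_of_ne hi]; exact hr.1 i
    · have h1 : cost z (Function.update (Function.update r h 0) h (r h)) =
          cost z (Function.update r h 0) + c (r h) := hcost _ _ (by simp)
      have h2 : Function.update (Function.update r h 0) h (r h) = r := by simp
      rw [h2] at h1
      have := hr.2
      omega
    · simp
  rw [hWW, ← Finset.sum_fiberwise_of_maps_to hmaps, Finset.sum_congr rfl hstep]
  -- the right side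
  have hV1 : V1 E z ≠ 0 := by
    have h1 : (1 : ℕ) ∈ SS z (z ^ MM E) := by
      unfold SS
      rw [mem_filter, mem_Ico]
      refine ⟨⟨le_rfl, Nat.one_lt_pow (by omega) (by omega)⟩, squarefree_one, ?_⟩
      intro p hp hd
      exact absurd (Nat.dvd_one.1 hd) hp.one_lt.ne'
    have h2 : (1 : ℝ) / (Nat.totient 1 : ℝ) ≤ V1 E z := by
      unfold V1
      exact Finset.single_le_sum (f := fun s : ℕ => 1 / (Nat.totient s : ℝ))
        (fun s _ => by positivity) h1
    simp at h2
    linarith
  unfold GG
  apply Finset.sum_congr rfl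
  intro r _
  have h3 : ∀ s ∈ SS z (z ^ MM E), De q E z (cost z r) * (1 / (V1 E z * (Nat.totient s : ℝ))) *
      vv y z s (n + (h : ℕ)) * ∏ i : P, ((if r i = 0 then 1 else - aa q E z (r i)) *
        vv y z (r i) (n + (i : ℕ))) =
      (De q E z (cost z r) * ∏ i, f i (r i)) * ((1 / V1 E z) * (1 / (Nat.totient s : ℝ))) := by
    intro s hs
    rw [hvv s hs, one_div_mul_one_div]
    simp only [hf]
    ring
  rw [Finset.sum_congr rfl h3, ← Finset.mul_sum, ← Finset.mul_sum]
  have h4 : ∑ s ∈ SS z (z ^ MM E), 1 / (Nat.totient s : ℝ) = V1 E z := rfl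
  rw [h4, one_div_mul_cancel hV1, mul_one]

end Pool.Agent.Helper11.PP
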